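import Pool.Agent.TH533.UniTrig

set_option autoImplicit false

namespace Pool.Agent.TH533.Uni

open Complex

/-- boundary curve -/
noncomputable def bz (t : ℝ) : ℂ := Complex.exp ((t : ℂ) * I)

lemma bz_eq (t : ℝ) : bz t = ((Real.cos t : ℝ) : ℂ) + ((Real.sin t : ℝ) : ℂ) * I := by
  unfold bz
  rw [Complex.exp_mul_I, ← Complex.ofReal_cos, ← Complex.ofReal_sin]

lemma bz_pow (t : ℝ) (m : ℕ) : bz t ^ m = ((Real.cos (m * t) : ℝ) : ℂ) + ((Real.sin (m * t) : ℝ) : ℂ) * I := by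
  unfold bz
  rw [← Complex.exp_nat_mul]
  have : (m : ℂ) * ((t : ℂ) * I) = ((m * t : ℝ) : ℂ) * I := by push_cast; ring
  rw [this, Complex.exp_mul_I, ← Complex.ofReal_cos, ← Complex.ofReal_sin]

/-- `P(t) = 2(cos t - cos 2θ)` -/
noncomputable def PP (n : ℕ) (t : ℝ) : ℝ := 4 * (Real.sin (th n) ^ 2 - Real.sin (t / 2) ^ 2)

lemma PP_eq (n : ℕ) (t : ℝ) : PP n t = 2 * Real.cos t - 2 * (1 - 2 * Real.sin (th n) ^ 2) := by
  unfold PP
  have h : Real.cos t = 1 - 2 * Real.sin (t / 2) ^ 2 := by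
    have h1 : Real.cos t = Real.cos (2 * (t / 2)) := by ring_nf
    rw [h1, Real.cos_two_mul]
    have := Real.sin_sq_add_cos_sq (t / 2)
    linarith
  rw [h]; ring

lemma PP_eq' (n : ℕ) (t : ℝ) : PP n t = 4 * (Real.cos (t / 2) ^ 2 - Real.cos (th n) ^ 2) := by
  unfold PP
  have h1 := Real.sin_sq_add_cos_sq (t / 2)
  have h2 := Real.sin_sq_add_cos_sq (th n)
  linarith

lemma D_eq (n : ℕ) (t : ℝ) : (1 - ww n * bz t) * (1 - ww' n * bz t) = bz t * (PP n t : ℂ) := by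
  have h1 : (1 - ww n * bz t) * (1 - ww' n * bz t) = 1 + bz t ^ 2 - (2 - (2 - ww n - ww' n)) * bz t := by
    linear_combination (bz t ^ 2) * ww_mul n
  rw [h1, ww_sig, PP_eq]
  have h2 : bz t ^ 2 + 1 = 2 * ((Real.cos t : ℝ) : ℂ) * bz t := by
    rw [bz_eq]
    have h3 : ((Real.sin t : ℝ) : ℂ) ^ 2 + ((Real.cos t : ℝ) : ℂ) ^ 2 = 1 := by
      exact_mod_cast Real.sin_sq_add_cos_sq t
    linear_combination (-(1 : ℂ)) * h3 + (((Real.sin t : ℝ) : ℂ) ^ 2) * I_sq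
  push_cast at h2 ⊢
  linear_combination h2

theorem boundary (n : ℕ) {t : ℝ} (h0 : 0 < t) (h1 : t < 2 * Real.pi) :
    (((n : ℝ) + 3) * PP n t ^ 2 * Real.sin (t / 2) : ℝ) * Fm n (bz t)
      = ((((n : ℝ) + 3) * PP n t * Real.sin (t / 2)
        + 4 * Real.sin (th n) ^ 2 * Real.cos (t / 2) * Real.sin (((n : ℝ) + 3) * t) : ℝ) : ℂ)
        + ((4 * Real.sin (th n) ^ 2 * Real.cos (t / 2) * (1 - Real.cos (((n : ℝ) + 3) * t)) : ℝ) : ℂ) * I := by
  have hcf := closed_form n (bz t)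
  rw [D_eq, ww_sig] at hcf
  have hz0 : bz t ≠ 0 := Complex.exp_ne_zero _
  have hs : 0 < Real.sin (t / 2) := Real.sin_pos_of_pos_of_lt_pi (by linarith) (by linarith)
  have hz1 : 1 - bz t ≠ 0 := by
    intro h
    have h2 := congrArg Complex.re h
    rw [bz_eq] at h2
    simp at h2
    have h3 : Real.cos t = 1 - 2 * Real.sin (t / 2) ^ 2 := by
      have h1 : Real.cos t = Real.cos (2 * (t / 2)) := by ring_nf
      rw [h1, Real.cos_two_mul]
      have := Real.sin_sq_add_cos_sq (t / 2)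
      linarith
    rw [← Complex.ofReal_cos, Complex.ofReal_re, h3] at h2
    have := pow_pos hs 2
    linarith
  have hkey : (1 + bz t) * ((Real.sin (t / 2) : ℝ) : ℂ) = I * ((Real.cos (t / 2) : ℝ) : ℂ) * (1 - bz t) := by
    rw [bz_eq]
    have h3 : Real.cos t = 2 * Real.cos (t / 2) ^ 2 - 1 := by
      have h1 : Real.cos t = Real.cos (2 * (t / 2)) := by ring_nf
      rw [h1, Real.cos_two_mul]
    have h4 : Real.sin t = 2 * Real.sin (t / 2) * Real.cos (t / 2) := by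
      have h1 : Real.sin t = Real.sin (2 * (t / 2)) := by ring_nf
      rw [h1, Real.sin_two_mul]
    have h5 : ((Real.sin (t / 2) : ℝ) : ℂ) ^ 2 + ((Real.cos (t / 2) : ℝ) : ℂ) ^ 2 = 1 := by
      exact_mod_cast Real.sin_sq_add_cos_sq (t / 2)
    rw [h3, h4]
    push_cast at h5 ⊢
    generalize Complex.sin ((t : ℂ) / 2) = s at *
    generalize Complex.cos ((t : ℂ) / 2) = c at *
    linear_combination (2 * I * c) * h5 + (2 * s * c ^ 2) * I_sq
  have hpow := bz_pow t (n + 3)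
  have hcast : ((n + 3 : ℕ) : ℝ) = (n : ℝ) + 3 := by push_cast; ring
  rw [hcast] at hpow
  rw [hpow] at hcf
  apply mul_left_cancel₀ (mul_ne_zero hz1 (pow_ne_zero 2 hz0))
  push_cast at hcf hkey ⊢
  generalize Complex.sin ((t : ℂ) / 2) = s at *
  generalize Complex.cos ((t : ℂ) / 2) = c at *
  generalize Complex.sin (((n : ℂ) + 3) * (t : ℂ)) = SM at *
  generalize Complex.cos (((n : ℂ) + 3) * (t : ℂ)) = CM at *
  generalize Complex.sin (th n : ℂ) = b at *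
  generalize (PP n t : ℂ) = P at *
  generalize Fm n (bz t) = F at *
  generalize bz t = z at *
  linear_combination s * hcf + (4 * b ^ 2 * z ^ 2 * (1 - (CM + SM * I))) * hkey
    - (4 * b ^ 2 * z ^ 2 * c * (1 - z) * SM) * I_sq

end Pool.Agent.TH533.Uni
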