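import Pool.Agent.TH533.UniSqrt

set_option autoImplicit false

namespace Pool.Agent.TH533.Uni

open Complex Set

/-- a half strip -/
def Strip : Set ℂ := {L | L.re < 0 ∧ 0 < L.im ∧ L.im < Real.pi}

lemma convex_strip : Convex ℝ Strip := by
  have h1 : Convex ℝ {L : ℂ | L.re < 0} := convex_halfSpace_re_lt 0
  have h2 : Convex ℝ {L : ℂ | 0 < L.im} := convex_halfSpace_im_gt 0
  have h3 : Convex ℝ {L : ℂ | L.im < Real.pi} := convex_halfSpace_im_lt Real.pi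
  exact h1.inter (h2.inter h3)

/-- `T = i (1-E)/(1+E)` -/
noncomputable def Tm (L : ℂ) : ℂ := I * (1 - Complex.exp L) / (1 + Complex.exp L)

lemma exp_strip {L : ℂ} (hL : L ∈ Strip) :
    ‖Complex.exp L‖ < 1 ∧ 0 < (Complex.exp L).im ∧ 1 + Complex.exp L ≠ 0 := by
  obtain ⟨h1, h2, h3⟩ := hL
  refine ⟨?_, ?_, ?_⟩
  · rw [Complex.norm_exp]; exact Real.exp_lt_one_iff.2 h1
  · rw [Complex.exp_im]
    exact mul_pos (Real.exp_pos _) (Real.sin_pos_of_pos_of_lt_pi h2 h3)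
  · intro h
    have h4 : 0 < (Complex.exp L).im := by
      rw [Complex.exp_im]
      exact mul_pos (Real.exp_pos _) (Real.sin_pos_of_pos_of_lt_pi h2 h3)
    have h5 := congrArg Complex.im h
    rw [Complex.add_im, Complex.one_im, Complex.zero_im, zero_add] at h5
    linarith

lemma cayley_pos {E : ℂ} (h1 : ‖E‖ < 1) (h2 : 0 < E.im) (h3 : 1 + E ≠ 0) :
    0 < (I * (1 - E) / (1 + E)).re ∧ 0 < (I * (1 - E) / (1 + E)).im := by
  have h4 : 0 < Complex.normSq (1 + E) := Complex.normSq_pos.2 h3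
  have h5 : Complex.normSq E < 1 := by
    rw [← Complex.sq_norm]
    have := norm_nonneg E
    nlinarith
  rw [Complex.normSq_apply] at h5
  constructor
  · rw [Complex.div_re]
    have : (I * (1 - E)).re * (1 + E).re / normSq (1 + E) + (I * (1 - E)).im * (1 + E).im / normSq (1 + E)
       = (2 * E.im) / normSq (1 + E) := by
      simp
      field_simp
      ring
    rw [this]
    positivity
  · rw [Complex.div_im]
    have : (I * (1 - E)).im * (1 + E).re / normSq (1 + E) - (I * (1 - E)).re * (1 + E).im / normSq (1 + E)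
       = (1 - (E.re * E.re + E.im * E.im)) / normSq (1 + E) := by
      simp
      field_simp
      ring
    rw [this]
    apply div_pos _ h4
    linarith

lemma Tm_pos {L : ℂ} (hL : L ∈ Strip) : 0 < (Tm L).re ∧ 0 < (Tm L).im := by
  obtain ⟨h1, h2, h3⟩ := exp_strip hL
  exact cayley_pos h1 h2 h3

lemma hasDerivAt_Tm {L : ℂ} (hL : L ∈ Strip) :
    HasDerivAt Tm (-(I / 2) * (1 + Tm L ^ 2)) L := by
  obtain ⟨h1, h2, h3⟩ := exp_strip hL
  have hE := Complex.hasDerivAt_exp L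
  have hn : HasDerivAt (fun L => I * (1 - Complex.exp L)) (I * (-Complex.exp L)) L :=
    (hE.const_sub 1).const_mul I
  have hd : HasDerivAt (fun L => 1 + Complex.exp L) (Complex.exp L) L := hE.const_add 1
  have h4 := hn.div hd h3
  have h5 : -(I / 2) * (1 + Tm L ^ 2) = (I * -cexp L * (1 + cexp L) - I * (1 - cexp L) * cexp L) / (1 + cexp L) ^ 2 := by
    unfold Tm
    generalize cexp L = E at *
    have h6 : I ^ 2 = -1 := I_sq
    field_simp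
    linear_combination (-(1 - E) ^ 2 / 1) * h6
  rw [h5]
  exact h4

lemma Tm_surj {T : ℂ} (h1 : 0 < T.re) (h2 : 0 < T.im) : ∃ L ∈ Strip, Tm L = T := by
  have hd : 1 - I * T ≠ 0 := by
    intro h
    have := congrArg Complex.re h
    simp at this
    linarith
  have hdp : 0 < normSq (1 - I * T) := Complex.normSq_pos.2 hd
  set E := (1 + I * T) / (1 - I * T) with hE
  have hEim : 0 < E.im := by
    rw [hE, Complex.div_im]
    have : (1 + I * T).im * (1 - I * T).re / normSq (1 - I * T) -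
        (1 + I * T).re * (1 - I * T).im / normSq (1 - I * T) = 2 * T.re / normSq (1 - I * T) := by
      simp
      field_simp
      ring
    rw [this]; positivity
  have hEn : ‖E‖ < 1 := by
    rw [hE, norm_div, div_lt_one (norm_pos_iff.2 hd)]
    apply lt_of_pow_lt_pow_left₀ 2 (norm_nonneg _)
    rw [Complex.sq_norm, Complex.sq_norm, Complex.normSq_apply, Complex.normSq_apply]
    simp
    nlinarith
  have hE0 : E ≠ 0 := by
    intro h; rw [h] at hEim; simp at hEim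
  refine ⟨Complex.log E, ⟨?_, ?_, ?_⟩, ?_⟩
  · rw [Complex.log_re]
    exact Real.log_neg (norm_pos_iff.2 hE0) hEn
  · rw [Complex.log_im]
    rcases (Complex.arg_nonneg_iff.2 hEim.le).lt_or_eq with h | h
    · exact h
    · exfalso
      have := Complex.arg_eq_zero_iff.1 h.symm
      linarith [this.2]
  · rw [Complex.log_im]
    rcases (Complex.arg_le_pi E).lt_or_eq with h | h
    · exact h
    · exfalso
      have := Complex.arg_eq_pi_iff.1 h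
      linarith [this.2]
  · unfold Tm
    rw [Complex.exp_log hE0, hE]
    have h5 : 1 + (1 + I * T) / (1 - I * T) = 2 / (1 - I * T) := by
      field_simp; ring
    have h6 : 1 - (1 + I * T) / (1 - I * T) = -2 * (I * T) / (1 - I * T) := by
      field_simp; ring
    rw [h5, h6]
    field_simp
    ring_nf
    simp

/-- elementary facts on products and squares in the first quadrant -/
lemma re_pos_of_sq_im {a b : ℂ} (hb : 0 < b.re) (hb' : 0 < b.im) (ha : 0 < a.re) (ha' : 0 < a.im)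
    (h : 0 < ((a * b) ^ 2).im) : 0 < (a * b).re ∧ 0 < (a * b).im := by
  have h1 : 0 < (a * b).im := by
    rw [Complex.mul_im]; positivity
  have h2 : ((a * b) ^ 2).im = 2 * ((a * b).re * (a * b).im) := by
    rw [pow_two, Complex.mul_im (a * b) (a * b)]; ring
  refine ⟨?_, h1⟩
  rw [h2] at h
  by_contra h3
  push Not at h3
  have := mul_nonpos_of_nonpos_of_nonneg h3 h1.le
  linarith

lemma inv_im_pos {w : ℂ} (h : w.im < 0) : 0 < (w⁻¹).im := by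
  rw [Complex.inv_im]
  apply div_pos (by linarith)
  apply Complex.normSq_pos.2
  intro h0; rw [h0] at h; simp at h

lemma one_sub_sq_im {m : ℂ} (h1 : 0 < m.re) (h2 : 0 < m.im) : (1 - m ^ 2).im < 0 := by
  have : (1 - m ^ 2).im = -(2 * (m.re * m.im)) := by
    rw [pow_two, Complex.sub_im, Complex.mul_im]; simp; ring
  rw [this]
  have := mul_pos h1 h2
  linarith

/-- `β(m) = (1-m²)^(-1/2)` -/
noncomputable def bet (m : ℂ) : ℂ := sq ((1 - m ^ 2)⁻¹)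

lemma bet_pos {m : ℂ} (h1 : 0 < m.re) (h2 : 0 < m.im) : 0 < (bet m).re ∧ 0 < (bet m).im :=
  sq_pos (inv_im_pos (one_sub_sq_im h1 h2))

lemma bet_sq {m : ℂ} (h1 : 0 < m.re) (h2 : 0 < m.im) : bet m ^ 2 = (1 - m ^ 2)⁻¹ :=
  sq_pow_two (inv_im_pos (one_sub_sq_im h1 h2)).le

lemma one_sub_ne {m : ℂ} (h1 : 0 < m.re) (h2 : 0 < m.im) : 1 - m ^ 2 ≠ 0 := by
  intro h
  have := one_sub_sq_im h1 h2
  rw [h] at this; simp at this

lemma bet_ne {m : ℂ} (h1 : 0 < m.re) (h2 : 0 < m.im) : bet m ≠ 0 := by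
  intro h
  have := (bet_pos h1 h2).1
  rw [h] at this; simp at this

lemma bet_rel {m : ℂ} (h1 : 0 < m.re) (h2 : 0 < m.im) : m ^ 2 * bet m ^ 2 + 1 = bet m ^ 2 := by
  rw [bet_sq h1 h2]
  have := one_sub_ne h1 h2
  field_simp
  ring

lemma hasDerivAt_mbet {m : ℂ} (h1 : 0 < m.re) (h2 : 0 < m.im) :
    HasDerivAt (fun m => m * bet m) (bet m ^ 3) m := by
  have h3 := one_sub_ne h1 h2
  have h4 : HasDerivAt (fun m : ℂ => 1 - m ^ 2) (-(2 * m)) m := by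
    have := (hasDerivAt_pow 2 m).const_sub 1
    simpa using this
  have h5 := h4.inv h3
  have h6 := hasDerivAt_sq (inv_im_pos (one_sub_sq_im h1 h2))
  have h7 : HasDerivAt bet ((2 * sq ((1 - m ^ 2)⁻¹))⁻¹ * (- -(2 * m) / (1 - m ^ 2) ^ 2)) m :=
    HasDerivAt.comp m h6 h5
  have h8 := (hasDerivAt_id m).mul h7
  have h9 : bet m ^ 3 = 1 * bet m + m * ((2 * sq ((1 - m ^ 2)⁻¹))⁻¹ * (- -(2 * m) / (1 - m ^ 2) ^ 2)) := by
    have h10 : sq ((1 - m ^ 2)⁻¹) = bet m := rfl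
    rw [h10]
    have h11 := bet_rel h1 h2
    have h12 := bet_ne h1 h2
    have h13 : (1 - m ^ 2)⁻¹ = bet m ^ 2 := (bet_sq h1 h2).symm
    have h14 : - -(2 * m) / (1 - m ^ 2) ^ 2 = 2 * m * (bet m ^ 2) ^ 2 := by
      rw [← h13]; field_simp
    rw [h14]
    field_simp
    linear_combination (-1 : ℂ) * h11
  rw [h9]
  exact h8

theorem exists_coord (τ1 τ2 : ℝ) (h1 : 0 < τ1) (h2 : τ1 < τ2) :
    ∃ (K : ℂ → ℂ) (c : ℝ), 0 < c ∧
      (∀ L ∈ Strip, 0 < (K L).re ∧ 0 < (K L).im) ∧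
      (∀ L ∈ Strip, HasDerivAt K
        (-(c * I) * (((K L) ^ 2 + (τ1 : ℂ) ^ 2) * sq ((K L) ^ 2 + (τ2 : ℂ) ^ 2))) L) ∧
      (∀ k : ℂ, 0 < k.re → 0 < k.im → ∃ L ∈ Strip, K L = k) := by
  have h2' : 0 < τ2 := h1.trans h2
  set δ := Real.sqrt (τ2 ^ 2 - τ1 ^ 2) with hδ
  have hδ0 : 0 < τ2 ^ 2 - τ1 ^ 2 := by nlinarith
  have hδp : 0 < δ := Real.sqrt_pos.2 hδ0
  have hδs : δ ^ 2 = τ2 ^ 2 - τ1 ^ 2 := Real.sq_sqrt hδ0.le
  set ρ := τ1 / δ with hρ
  have hρp : 0 < ρ := div_pos h1 hδp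
  have hm : ∀ L ∈ Strip, 0 < ((ρ : ℂ) * Tm L).re ∧ 0 < ((ρ : ℂ) * Tm L).im := by
    intro L hL
    obtain ⟨h3, h4⟩ := Tm_pos hL
    rw [Complex.re_ofReal_mul, Complex.im_ofReal_mul]
    exact ⟨mul_pos hρp h3, mul_pos hρp h4⟩
  have hK2 : ∀ m : ℂ, 0 < m.re → 0 < m.im →
      ((τ2 : ℂ) * (m * bet m)) ^ 2 + (τ2 : ℂ) ^ 2 = ((τ2 : ℂ) * bet m) ^ 2 := by
    intro m hm1 hm2
    linear_combination (τ2 : ℂ) ^ 2 * bet_rel hm1 hm2
  have hb : ∀ m : ℂ, 0 < m.re → 0 < m.im →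
      0 < ((τ2 : ℂ) * bet m).re ∧ 0 < ((τ2 : ℂ) * bet m).im := by
    intro m hm1 hm2
    obtain ⟨h3, h4⟩ := bet_pos hm1 hm2
    rw [Complex.re_ofReal_mul, Complex.im_ofReal_mul]
    exact ⟨mul_pos h2' h3, mul_pos h2' h4⟩
  refine ⟨fun L => (τ2 : ℂ) * (((ρ : ℂ) * Tm L) * bet ((ρ : ℂ) * Tm L)), 1 / (2 * τ1 * δ),
    by positivity, ?_, ?_, ?_⟩
  · intro L hL
    obtain ⟨hm1, hm2⟩ := hm L hL
    set m := (ρ : ℂ) * Tm L
    obtain ⟨h3, h4⟩ := bet_pos hm1 hm2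
    have h5 : 0 < ((m * bet m) ^ 2).im := by
      have h6 : (m * bet m) ^ 2 = bet m ^ 2 - 1 := by
        linear_combination bet_rel hm1 hm2
      rw [h6, Complex.sub_im, Complex.one_im, sub_zero, bet_sq hm1 hm2]
      exact inv_im_pos (one_sub_sq_im hm1 hm2)
    obtain ⟨h6, h7⟩ := re_pos_of_sq_im h3 h4 hm1 hm2 h5
    show 0 < ((τ2 : ℂ) * (m * bet m)).re ∧ 0 < ((τ2 : ℂ) * (m * bet m)).im
    rw [Complex.re_ofReal_mul, Complex.im_ofReal_mul]
    exact ⟨mul_pos h2' h6, mul_pos h2' h7⟩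
  · intro L hL
    obtain ⟨hm1, hm2⟩ := hm L hL
    have hT := (hasDerivAt_Tm hL).const_mul (ρ : ℂ)
    have hB := hasDerivAt_mbet hm1 hm2
    have hBT : HasDerivAt ((fun m => m * bet m) ∘ (fun L => (ρ : ℂ) * Tm L))
      (bet ((ρ : ℂ) * Tm L) ^ 3 * ((ρ : ℂ) * (-(I / 2) * (1 + Tm L ^ 2)))) L :=
      HasDerivAt.comp L hB hT
    have hC : HasDerivAt (fun L => (τ2 : ℂ) * (((ρ : ℂ) * Tm L) * bet ((ρ : ℂ) * Tm L)))
      ((τ2 : ℂ) * (bet ((ρ : ℂ) * Tm L) ^ 3 * ((ρ : ℂ) * (-(I / 2) * (1 + Tm L ^ 2))))) L :=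
      hBT.const_mul (τ2 : ℂ)
    convert hC using 1
    show -(((1 / (2 * τ1 * δ) : ℝ) : ℂ) * I) * ((((τ2 : ℂ) * (((ρ : ℂ) * Tm L) * bet ((ρ : ℂ) * Tm L))) ^ 2 + (τ1 : ℂ) ^ 2) *
      sq (((τ2 : ℂ) * (((ρ : ℂ) * Tm L) * bet ((ρ : ℂ) * Tm L))) ^ 2 + (τ2 : ℂ) ^ 2)) = _
    rw [hK2 _ hm1 hm2, sq_eq_of_sq (hb _ hm1 hm2).1 (hb _ hm1 hm2).2 rfl]
    have hrel := bet_rel hm1 hm2
    generalize bet ((ρ : ℂ) * Tm L) = b at *
    generalize Tm L = T at *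
    have hδc : (δ : ℂ) ≠ 0 := by exact_mod_cast hδp.ne'
    have hτc : (τ1 : ℂ) ≠ 0 := by exact_mod_cast h1.ne'
    have hρc : (ρ : ℂ) * (δ : ℂ) = (τ1 : ℂ) := by
      rw [hρ]; push_cast; field_simp
    have hδsc : (δ : ℂ) ^ 2 = (τ2 : ℂ) ^ 2 - (τ1 : ℂ) ^ 2 := by exact_mod_cast hδs
    have key : ((τ2 : ℂ) * ((ρ : ℂ) * T * b)) ^ 2 + (τ1 : ℂ) ^ 2 = b ^ 2 * (τ1 : ℂ) ^ 2 * (1 + T ^ 2) := by
      have e1 : (τ2 : ℂ) ^ 2 = (δ : ℂ) ^ 2 + (τ1 : ℂ) ^ 2 := by rw [hδsc]; ring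
      have e2 : ((τ2 : ℂ) * ((ρ : ℂ) * T * b)) ^ 2 = ((δ : ℂ) ^ 2 + (τ1 : ℂ) ^ 2) * ((ρ : ℂ) * T * b) ^ 2 := by
        rw [← e1]; ring
      rw [e2]
      have e3 : ((ρ : ℂ) * (δ : ℂ)) ^ 2 = (τ1 : ℂ) ^ 2 := by rw [hρc]
      linear_combination (T ^ 2 * b ^ 2) * e3 + (τ1 : ℂ) ^ 2 * hrel
    rw [key]
    push_cast
    have hρ' : (ρ : ℂ) = (τ1 : ℂ) / (δ : ℂ) := by rw [hρ]; push_cast; rfl
    rw [hρ']
    field_simp
  · intro k hk1 hk2
    have hk3 : 0 < (k ^ 2 + (τ2 : ℂ) ^ 2).im := by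
      have : (k ^ 2 + (τ2 : ℂ) ^ 2).im = 2 * (k.re * k.im) := by
        rw [pow_two, pow_two, Complex.add_im, Complex.mul_im, Complex.mul_im]; simp; ring
      rw [this]; positivity
    set b := sq (k ^ 2 + (τ2 : ℂ) ^ 2) with hbdef
    obtain ⟨hb1, hb2⟩ := sq_pos hk3
    rw [← hbdef] at hb1 hb2
    have hbsq : b ^ 2 = k ^ 2 + (τ2 : ℂ) ^ 2 := sq_pow_two hk3.le
    have hbne : b ≠ 0 := by intro h; rw [h] at hb1; simp at hb1
    have hτ2c : (τ2 : ℂ) ≠ 0 := by exact_mod_cast h2'.ne'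
    have hbn : 0 < normSq b := Complex.normSq_pos.2 hbne
    have hmre : 0 < (k / b).re := by
      rw [Complex.div_re]; positivity
    have hmsq : 1 - (k / b) ^ 2 = (τ2 : ℂ) ^ 2 / b ^ 2 := by
      field_simp; rw [hbsq]; ring
    have hmim : 0 < (k / b).im := by
      have e1 : ((k / b) ^ 2).im = 2 * ((k / b).re * (k / b).im) := by
        rw [pow_two, Complex.mul_im]; ring
      have e2 : 0 < ((k / b) ^ 2).im := by
        have e3 : (k / b) ^ 2 = 1 - (((τ2 ^ 2 : ℝ) : ℂ)) * (b ^ 2)⁻¹ := by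
          have : (k / b) ^ 2 = 1 - (τ2 : ℂ) ^ 2 / b ^ 2 := by rw [← hmsq]; ring
          rw [this]; push_cast; rw [div_eq_mul_inv]
        rw [e3, Complex.sub_im, Complex.one_im, Complex.im_ofReal_mul, Complex.inv_im, hbsq]
        have e4 : 0 < normSq (k ^ 2 + (τ2 : ℂ) ^ 2) := by
          apply Complex.normSq_pos.2
          intro h; rw [h] at hk3; simp at hk3
        have e5 : 0 < (k ^ 2 + (τ2 : ℂ) ^ 2).im / normSq (k ^ 2 + (τ2 : ℂ) ^ 2) := div_pos hk3 e4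
        have e6 : -(k ^ 2 + (τ2 : ℂ) ^ 2).im / normSq (k ^ 2 + (τ2 : ℂ) ^ 2) =
          - ((k ^ 2 + (τ2 : ℂ) ^ 2).im / normSq (k ^ 2 + (τ2 : ℂ) ^ 2)) := by ring
        rw [e6]
        have := mul_pos (pow_pos h2' 2) e5
        linarith
      rw [e1] at e2
      by_contra h3
      push Not at h3
      have := mul_nonpos_of_nonneg_of_nonpos hmre.le h3
      linarith
    have hρc : (ρ : ℂ) ≠ 0 := by exact_mod_cast hρp.ne'
    obtain ⟨L, hL, hLT⟩ := Tm_surj (T := ((ρ⁻¹ : ℝ) : ℂ) * (k / b))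
      (by rw [Complex.re_ofReal_mul]; positivity) (by rw [Complex.im_ofReal_mul]; positivity)
    refine ⟨L, hL, ?_⟩
    show (τ2 : ℂ) * (((ρ : ℂ) * Tm L) * bet ((ρ : ℂ) * Tm L)) = k
    have e1 : (ρ : ℂ) * Tm L = k / b := by
      rw [hLT]; push_cast; field_simp
    rw [e1]
    have e2 : bet (k / b) = b / (τ2 : ℂ) := by
      unfold bet
      rw [hmsq]
      have e3 : b / (τ2 : ℂ) = ((τ2⁻¹ : ℝ) : ℂ) * b := by push_cast; field_simp
      apply sq_eq_of_sq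
      · rw [e3, Complex.re_ofReal_mul]; positivity
      · rw [e3, Complex.im_ofReal_mul]; positivity
      · field_simp
    rw [e2]
    field_simp

end Pool.Agent.TH533.Uni
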