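import Pool.Agent.TH533.UniPL
import Pool.Agent.TH533.UniCoord

set_option autoImplicit false

namespace Pool.Agent.TH533.Uni

open Complex Set

/-- Noshiro-Warschawski on a convex set. -/
theorem injOn_of_re_pos {S : Set ℂ} (hS : Convex ℝ S) (f f' : ℂ → ℂ) (c : ℂ)
    (hf : ∀ x ∈ S, HasDerivAt f (f' x) x) (hpos : ∀ x ∈ S, 0 < (c * f' x).re) :
    InjOn f S := by
  intro x hx y hy hxy
  by_contra hne
  have hd : y - x ≠ 0 := sub_ne_zero.2 (Ne.symm hne)
  set d := y - x with hdd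
  have hseg : ∀ s ∈ Icc (0 : ℝ) 1, x + (s : ℂ) * d ∈ S := by
    intro s hs
    have h1 : x + (s : ℂ) * d = (1 - s) • x + s • y := by
      simp [hdd]; ring
    rw [h1]
    exact hS hx hy (by linarith [hs.2]) hs.1 (by ring)
  have hder : ∀ s ∈ Icc (0 : ℝ) 1, HasDerivAt
      (fun s : ℝ => (c * (starRingEnd ℂ d) * f (x + (s : ℂ) * d)).re)
      ((c * (starRingEnd ℂ d) * (f' (x + (s : ℂ) * d) * d)).re) s := by
    intro s hs
    have h1 : HasDerivAt (fun s : ℂ => x + s * d) d (s : ℂ) := by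
      simpa using ((hasDerivAt_id (s : ℂ)).mul_const d).const_add x
    have h2 : HasDerivAt (fun s : ℂ => c * (starRingEnd ℂ d) * f (x + s * d))
        (c * (starRingEnd ℂ d) * (f' (x + (s : ℂ) * d) * d)) (s : ℂ) :=
      (HasDerivAt.comp (s : ℂ) (hf _ (hseg s hs)) h1).const_mul _
    exact h2.real_of_complex
  have hcont : ContinuousOn (fun s : ℝ => (c * (starRingEnd ℂ d) * f (x + (s : ℂ) * d)).re) (Icc 0 1) :=
    fun s hs => (hder s hs).continuousAt.continuousWithinAt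
  obtain ⟨s, hs, hs'⟩ := exists_hasDerivAt_eq_slope
    (fun s : ℝ => (c * (starRingEnd ℂ d) * f (x + (s : ℂ) * d)).re) _ (by norm_num : (0 : ℝ) < 1) hcont
    (fun s hs => hder s ⟨hs.1.le, hs.2.le⟩)
  have h3 : (c * (starRingEnd ℂ d) * (f' (x + (s : ℂ) * d) * d)).re
      = Complex.normSq d * (c * f' (x + (s : ℂ) * d)).re := by
    have : c * (starRingEnd ℂ d) * (f' (x + (s : ℂ) * d) * d) =
        ((Complex.normSq d : ℝ) : ℂ) * (c * f' (x + (s : ℂ) * d)) := by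
      rw [Complex.normSq_eq_conj_mul_self]; ring
    rw [this, Complex.re_ofReal_mul]
  rw [h3] at hs'
  have h4 : 0 < Complex.normSq d * (c * f' (x + (s : ℂ) * d)).re :=
    mul_pos (Complex.normSq_pos.2 hd) (hpos _ (hseg s ⟨hs.1.le, hs.2.le⟩))
  rw [hs'] at h4
  have h5 : x + ((1 : ℝ) : ℂ) * d = y := by simp [hdd]
  have h6 : x + ((0 : ℝ) : ℂ) * d = x := by simp
  rw [h5, h6, hxy] at h4
  simp at h4

/-- facts about the Cayley map `z = (1-k)/(1+k)` -/
lemma one_add_ne {k : ℂ} (hk : 0 ≤ k.re) : 1 + k ≠ 0 := by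
  intro h
  have := congrArg Complex.re h
  simp at this
  linarith

lemma one_add_normSq {k : ℂ} (hk : 0 ≤ k.re) : 1 + ‖k‖ ^ 2 ≤ ‖1 + k‖ ^ 2 := by
  rw [Complex.sq_norm, Complex.sq_norm, Complex.normSq_apply, Complex.normSq_apply]
  simp
  nlinarith

lemma cayley_norm {k : ℂ} (hk : 0 ≤ k.re) : ‖(1 - k) / (1 + k)‖ ≤ 1 := by
  rw [norm_div, div_le_one (norm_pos_iff.2 (one_add_ne hk))]
  apply le_of_sq_le_sq _ (norm_nonneg _)
  rw [Complex.sq_norm, Complex.sq_norm, Complex.normSq_apply, Complex.normSq_apply]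
  simp
  nlinarith

/-- unit circle parametrisation -/
lemma cayley_circle (τ : ℝ) :
    (1 - (τ : ℂ) * I) / (1 + (τ : ℂ) * I) = Complex.exp (-((2 * Real.arctan τ : ℝ) : ℂ) * I) := by
  have h1 : (1 + (τ : ℂ) * I) ≠ 0 := by
    intro h
    have := congrArg Complex.re h
    simp at this
  have h2 : Complex.exp (-((2 * Real.arctan τ : ℝ) : ℂ) * I)
      = ((Real.cos (2 * Real.arctan τ) : ℝ) : ℂ) - ((Real.sin (2 * Real.arctan τ) : ℝ) : ℂ) * I := by
    rw [← Complex.ofReal_neg, Complex.exp_mul_I, ← Complex.ofReal_cos, ← Complex.ofReal_sin,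
      Real.cos_neg, Real.sin_neg]
    push_cast; ring
  rw [h2]
  have h3 : (0 : ℝ) < 1 + τ ^ 2 := by positivity
  have hc : Real.cos (2 * Real.arctan τ) = (1 - τ ^ 2) / (1 + τ ^ 2) := by
    rw [Real.cos_two_mul, Real.cos_sq_arctan]; field_simp; ring
  have hs : Real.sin (2 * Real.arctan τ) = 2 * τ / (1 + τ ^ 2) := by
    rw [Real.sin_two_mul, Real.sin_arctan, Real.cos_arctan]
    have h4 : Real.sqrt (1 + τ ^ 2) * Real.sqrt (1 + τ ^ 2) = 1 + τ ^ 2 := Real.mul_self_sqrt h3.le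
    have h5 : Real.sqrt (1 + τ ^ 2) ≠ 0 := (Real.sqrt_pos.2 h3).ne'
    have h6 : 2 * (τ / Real.sqrt (1 + τ ^ 2)) * (1 / Real.sqrt (1 + τ ^ 2)) =
      2 * τ / (Real.sqrt (1 + τ ^ 2) * Real.sqrt (1 + τ ^ 2)) := by
      generalize Real.sqrt (1 + τ ^ 2) = r at *
      field_simp
    rw [h6, h4]
  rw [hc, hs]
  have h6 : ((1 : ℂ) + (τ : ℂ) ^ 2) ≠ 0 := by exact_mod_cast h3.ne'
  push_cast
  rw [div_eq_iff h1]
  field_simp
  linear_combination ((τ : ℂ) ^ 2 * 2) * I_sq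

theorem injOn_lower (F : ℂ → ℂ) (hF : Differentiable ℂ F)
    (hconj : ∀ z, deriv F ((starRingEnd ℂ) z) = (starRingEnd ℂ) (deriv F z))
    (t1 t2 : ℝ) (h0 : 0 < t1) (h12 : t1 < t2) (h2 : t2 < Real.pi)
    (hreal : ∀ x : ℝ, -1 ≤ x → x ≤ 1 → 0 ≤ (deriv F x).re)
    (h00 : 0 < (deriv F 0).re)
    (hv1 : ∀ t : ℝ, 0 < t → t < t1 →
      0 ≤ (Complex.exp ((t : ℂ) * I) * deriv F (Complex.exp ((t : ℂ) * I))).re)
    (hv2 : ∀ t : ℝ, t1 ≤ t → t ≤ t2 →
      (Complex.exp ((t : ℂ) * I) * deriv F (Complex.exp ((t : ℂ) * I))).re ≤ 0)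
    (hu : ∀ t : ℝ, t2 ≤ t → t < Real.pi →
      (Complex.exp ((t : ℂ) * I) * deriv F (Complex.exp ((t : ℂ) * I))).im ≤ 0) :
    InjOn F {z : ℂ | ‖z‖ < 1 ∧ z.im < 0} := by
  have hF' : Differentiable ℂ (deriv F) := by
    have h := hF.differentiableOn (s := univ)
    exact differentiableOn_univ.1 (h.deriv isOpen_univ)
  have hpi := Real.pi_pos
  set τ1 := Real.tan (t1 / 2) with hτ1
  set τ2 := Real.tan (t2 / 2) with hτ2
  have a1 : Real.arctan τ1 = t1 / 2 := Real.arctan_tan (by linarith) (by linarith)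
  have a2 : Real.arctan τ2 = t2 / 2 := Real.arctan_tan (by linarith) (by linarith)
  have hτ1p : 0 < τ1 := Real.tan_pos_of_pos_of_lt_pi_div_two (by linarith) (by linarith)
  have hτ12 : τ1 < τ2 := by
    rw [← Real.arctan_strictMono.lt_iff_lt, a1, a2]; linarith
  have hτ2p : 0 < τ2 := hτ1p.trans hτ12
  obtain ⟨K, c, hc, hKQ, hKd, hKs⟩ := exists_coord τ1 τ2 hτ1p hτ12
  set G : ℂ → ℂ := fun k => 2 * deriv F ((1 - k) / (1 + k)) / (1 + k) ^ 2 *
    ((k ^ 2 + (τ1 : ℂ) ^ 2) * sq (k ^ 2 + (τ2 : ℂ) ^ 2)) with hGdef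
  -- continuity
  have hGc : ContinuousOn G {k : ℂ | 0 ≤ k.re} := by
    have e1 : ContinuousOn (fun k : ℂ => (1 - k) / (1 + k)) {k : ℂ | 0 ≤ k.re} := by
      apply ContinuousOn.div (by fun_prop) (by fun_prop)
      intro k hk
      exact one_add_ne hk
    have e2 : ContinuousOn (fun k : ℂ => deriv F ((1 - k) / (1 + k))) {k : ℂ | 0 ≤ k.re} :=
      hF'.continuous.comp_continuousOn e1
    have e3 : ContinuousOn (fun k : ℂ => 2 * deriv F ((1 - k) / (1 + k)) / (1 + k) ^ 2) {k : ℂ | 0 ≤ k.re} := by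
      apply ContinuousOn.div (continuousOn_const.mul e2) (by fun_prop)
      intro k hk
      exact pow_ne_zero 2 (one_add_ne hk)
    have e4 : Continuous (fun k : ℂ => (k ^ 2 + (τ1 : ℂ) ^ 2) * sq (k ^ 2 + (τ2 : ℂ) ^ 2)) := by
      apply Continuous.mul (by fun_prop)
      exact continuous_sq.comp (by fun_prop)
    exact e3.mul e4.continuousOn
  have him2 : ∀ k : ℂ, 0 < k.re → 0 < k.im → 0 < (k ^ 2 + (τ2 : ℂ) ^ 2).im := by
    intro k hk1 hk2
    have : (k ^ 2 + (τ2 : ℂ) ^ 2).im = 2 * (k.re * k.im) := by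
      rw [pow_two, pow_two, Complex.add_im, Complex.mul_im, Complex.mul_im]; simp; ring
    rw [this]; positivity
  have hGd : DifferentiableOn ℂ G (Ioi 0 ×ℂ Ioi 0) := by
    intro k hk
    have hk1 : 0 < k.re := hk.1
    have hk2 : 0 < k.im := hk.2
    have hne := one_add_ne hk1.le
    apply DifferentiableAt.differentiableWithinAt
    have e1 : DifferentiableAt ℂ (fun k : ℂ => (1 - k) / (1 + k)) k := by
      apply DifferentiableAt.div (by fun_prop) (by fun_prop) hne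
    have e2 : DifferentiableAt ℂ (fun k : ℂ => deriv F ((1 - k) / (1 + k))) k :=
      DifferentiableAt.comp k (hF' _) e1
    have e3 : DifferentiableAt ℂ (fun k : ℂ => 2 * deriv F ((1 - k) / (1 + k)) / (1 + k) ^ 2) k := by
      have e2' : DifferentiableAt ℂ (fun k : ℂ => (1 + k) ^ 2) k := by fun_prop
      exact (e2.const_mul 2).div e2' (pow_ne_zero 2 hne)
    have e4 : DifferentiableAt ℂ (fun k : ℂ => sq (k ^ 2 + (τ2 : ℂ) ^ 2)) k := by
      have e5 : DifferentiableAt ℂ (fun k : ℂ => k ^ 2 + (τ2 : ℂ) ^ 2) k := by fun_prop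
      exact DifferentiableAt.comp k (hasDerivAt_sq (him2 k hk1 hk2)).differentiableAt e5
    have e5 : DifferentiableAt ℂ (fun k : ℂ => k ^ 2 + (τ1 : ℂ) ^ 2) k := by fun_prop
    exact e3.mul (e5.mul e4)
  have hclos : closure (Ioi (0 : ℝ) ×ℂ Ioi (0 : ℝ)) ⊆ {k : ℂ | 0 ≤ k.re} := by
    rw [Complex.closure_reProdIm, closure_Ioi]
    intro k hk
    exact hk.1
  have hG : DiffContOnCl ℂ G (Ioi 0 ×ℂ Ioi 0) := ⟨hGd, hGc.mono hclos⟩
  -- growth
  obtain ⟨C0, hC0⟩ := (isCompact_closedBall (0 : ℂ) 1).exists_bound_of_continuousOn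
    hF'.continuous.continuousOn
  have hC0' : ∀ z : ℂ, ‖z‖ ≤ 1 → ‖deriv F z‖ ≤ C0 := fun z hz => hC0 z (by simpa using hz)
  have hC0n : 0 ≤ C0 := (norm_nonneg _).trans (hC0' 0 (by simp))
  have hgrow : ∀ k : ℂ, 0 < k.re → 0 < k.im →
      ‖G k‖ ≤ (2 * C0 * (1 + τ1 ^ 2)) * ‖k‖ + (2 * C0 * (1 + τ1 ^ 2)) * τ2 := by
    intro k hk1 hk2
    have hne : 0 < ‖1 + k‖ := norm_pos_iff.2 (one_add_ne hk1.le)
    have b1 : ‖k ^ 2 + (τ1 : ℂ) ^ 2‖ ≤ (1 + τ1 ^ 2) * ‖1 + k‖ ^ 2 := by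
      have c1 : ‖k ^ 2 + (τ1 : ℂ) ^ 2‖ ≤ ‖k‖ ^ 2 + τ1 ^ 2 := by
        refine (norm_add_le _ _).trans ?_
        rw [norm_pow, norm_pow, Complex.norm_real, Real.norm_eq_abs, sq_abs]
      have c2 := one_add_normSq hk1.le
      have c3 : 0 ≤ ‖k‖ ^ 2 := by positivity
      have c4 : 0 ≤ τ1 ^ 2 := by positivity
      nlinarith [mul_nonneg c4 c3]
    have b2 : ‖sq (k ^ 2 + (τ2 : ℂ) ^ 2)‖ ≤ ‖k‖ + τ2 := by
      apply le_of_sq_le_sq _ (by positivity)
      rw [norm_sq_pow]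
      refine (norm_add_le _ _).trans ?_
      rw [norm_pow, norm_pow, Complex.norm_real, Real.norm_eq_abs, sq_abs]
      have := mul_nonneg (norm_nonneg k) hτ2p.le
      nlinarith
    have b3 : ‖G k‖ = 2 * ‖deriv F ((1 - k) / (1 + k))‖ * (‖k ^ 2 + (τ1 : ℂ) ^ 2‖ / ‖1 + k‖ ^ 2) *
        ‖sq (k ^ 2 + (τ2 : ℂ) ^ 2)‖ := by
      simp only [hGdef, norm_mul, norm_div, norm_pow]
      rw [Complex.norm_ofNat]
      ring
    rw [b3]
    have b4 : ‖k ^ 2 + (τ1 : ℂ) ^ 2‖ / ‖1 + k‖ ^ 2 ≤ 1 + τ1 ^ 2 := by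
      rw [div_le_iff₀ (by positivity)]; exact b1
    have b5 := hC0' _ (cayley_norm hk1.le)
    calc 2 * ‖deriv F ((1 - k) / (1 + k))‖ * (‖k ^ 2 + (τ1 : ℂ) ^ 2‖ / ‖1 + k‖ ^ 2) *
        ‖sq (k ^ 2 + (τ2 : ℂ) ^ 2)‖ ≤ 2 * C0 * (1 + τ1 ^ 2) * (‖k‖ + τ2) := by gcongr
      _ = _ := by ring
  -- boundary: real axis
  have hre : ∀ x : ℝ, 0 ≤ x → 0 ≤ (G x).re := by
    intro x hx
    have hx1 : (0 : ℝ) < 1 + x := by linarith
    have c1 : ((1 : ℂ) - x) / (1 + x) = (((1 - x) / (1 + x) : ℝ) : ℂ) := by push_cast; rfl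
    have c2 : 0 ≤ (deriv F (((1 - x) / (1 + x) : ℝ) : ℂ)).re := by
      apply hreal
      · rw [le_div_iff₀ hx1]; linarith
      · rw [div_le_one hx1]; linarith
    have c3 : sq ((x : ℂ) ^ 2 + (τ2 : ℂ) ^ 2) = ((Real.sqrt (x ^ 2 + τ2 ^ 2) : ℝ) : ℂ) := by
      rw [← sq_of_nonneg (by positivity)]; push_cast; rfl
    have c4 : G x = ((2 / (1 + x) ^ 2 * ((x ^ 2 + τ1 ^ 2) * Real.sqrt (x ^ 2 + τ2 ^ 2)) : ℝ) : ℂ) *
        deriv F (((1 - x) / (1 + x) : ℝ) : ℂ) := by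
      simp only [hGdef]
      rw [c1, c3]
      push_cast
      ring
    rw [c4, Complex.re_ofReal_mul]
    positivity
  -- boundary: imaginary axis
  have him : ∀ x : ℝ, 0 ≤ x → 0 ≤ (G (x * I)).re := by
    intro x hx
    rcases hx.eq_or_lt with hx0 | hx0
    · have := hre 0 le_rfl
      rw [← hx0]
      simpa using this
    set t := 2 * Real.arctan x with ht
    have ht0 : 0 < t := by
      have := Real.arctan_pos.2 hx0
      linarith
    have htpi : t < Real.pi := by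
      have := Real.arctan_lt_pi_div_two x
      linarith
    set W := Complex.exp ((t : ℂ) * I) * deriv F (Complex.exp ((t : ℂ) * I)) with hW
    have hz : (1 - (x : ℂ) * I) / (1 + (x : ℂ) * I) = (starRingEnd ℂ) (Complex.exp ((t : ℂ) * I)) := by
      rw [cayley_circle x, ← Complex.exp_conj]
      congr 1
      rw [map_mul, Complex.conj_I, Complex.conj_ofReal]
      ring
    have hx2 : (1 + (x : ℂ) * I) ≠ 0 := one_add_ne (by simp)
    have hx3 : (0 : ℝ) < 1 + x ^ 2 := by positivity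
    have hx4 : ((1 : ℂ) + (x : ℂ) ^ 2) ≠ 0 := by exact_mod_cast hx3.ne'
    have hinv : 1 / (1 + (x : ℂ) * I) ^ 2 = ((1 - (x : ℂ) * I) / (1 + (x : ℂ) * I)) * (((1 + x ^ 2)⁻¹ : ℝ) : ℂ) := by
      push_cast
      field_simp
      linear_combination ((x : ℂ) ^ 2) * I_sq
    have hG1 : G ((x : ℂ) * I) = ((2 / (1 + x ^ 2) * (τ1 ^ 2 - x ^ 2) : ℝ) : ℂ) *
        ((starRingEnd ℂ) W * sq ((τ2 ^ 2 - x ^ 2 : ℝ) : ℂ)) := by
      have d1 : ((x : ℂ) * I) ^ 2 + (τ1 : ℂ) ^ 2 = ((τ1 ^ 2 - x ^ 2 : ℝ) : ℂ) := by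
        push_cast; linear_combination ((x : ℂ) ^ 2) * I_sq
      have d2 : ((x : ℂ) * I) ^ 2 + (τ2 : ℂ) ^ 2 = ((τ2 ^ 2 - x ^ 2 : ℝ) : ℂ) := by
        push_cast; linear_combination ((x : ℂ) ^ 2) * I_sq
      have d3 : (starRingEnd ℂ) W = ((1 - (x : ℂ) * I) / (1 + (x : ℂ) * I)) *
          deriv F ((1 - (x : ℂ) * I) / (1 + (x : ℂ) * I)) := by
        rw [hW, map_mul, hz, hconj]
      rw [d3]
      show 2 * deriv F ((1 - (x : ℂ) * I) / (1 + (x : ℂ) * I)) / (1 + (x : ℂ) * I) ^ 2 *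
        ((((x : ℂ) * I) ^ 2 + (τ1 : ℂ) ^ 2) * sq (((x : ℂ) * I) ^ 2 + (τ2 : ℂ) ^ 2)) = _
      rw [d1, d2]
      have d4 : 2 * deriv F ((1 - (x : ℂ) * I) / (1 + (x : ℂ) * I)) / (1 + (x : ℂ) * I) ^ 2 =
        2 * deriv F ((1 - (x : ℂ) * I) / (1 + (x : ℂ) * I)) * (1 / (1 + (x : ℂ) * I) ^ 2) := by ring
      rw [d4, hinv]
      push_cast
      ring
    rw [hG1, Complex.re_ofReal_mul]
    rcases le_or_gt x τ2 with hxt | hxt
    · -- v region
      have e1 : 0 ≤ τ2 ^ 2 - x ^ 2 := by nlinarith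
      rw [sq_of_nonneg e1, Complex.re_mul_ofReal, Complex.conj_re]
      have e2 : 0 ≤ Real.sqrt (τ2 ^ 2 - x ^ 2) := Real.sqrt_nonneg _
      rcases lt_or_ge x τ1 with hx1 | hx1
      · have e3 : 0 ≤ W.re := hv1 t ht0 (by
          have : Real.arctan x < Real.arctan τ1 := Real.arctan_strictMono hx1
          rw [a1] at this; linarith)
        have e4 : 0 ≤ τ1 ^ 2 - x ^ 2 := by nlinarith
        positivity
      · have e3 : W.re ≤ 0 := hv2 t (by
          have : Real.arctan τ1 ≤ Real.arctan x := Real.arctan_strictMono.monotone hx1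
          rw [a1] at this; linarith) (by
          have : Real.arctan x ≤ Real.arctan τ2 := Real.arctan_strictMono.monotone hxt
          rw [a2] at this; linarith)
        have e4 : τ1 ^ 2 - x ^ 2 ≤ 0 := by nlinarith
        have e5 : 2 / (1 + x ^ 2) * (τ1 ^ 2 - x ^ 2) ≤ 0 :=
          mul_nonpos_of_nonneg_of_nonpos (by positivity) e4
        exact mul_nonneg_of_nonpos_of_nonpos e5 (mul_nonpos_of_nonpos_of_nonneg e3 e2)
    · have e1 : τ2 ^ 2 - x ^ 2 ≤ 0 := by nlinarith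
      rw [sq_of_nonpos e1]
      have e2 : ((starRingEnd ℂ) W * (((Real.sqrt (-(τ2 ^ 2 - x ^ 2)) : ℝ) : ℂ) * I)).re =
          W.im * Real.sqrt (-(τ2 ^ 2 - x ^ 2)) := by
        simp
      rw [e2]
      have e3 : W.im ≤ 0 := hu t (by
          have : Real.arctan τ2 ≤ Real.arctan x := Real.arctan_strictMono.monotone hxt.le
          rw [a2] at this; linarith) htpi
      have e4 : τ1 ^ 2 - x ^ 2 ≤ 0 := by nlinarith
      have e5 : 2 / (1 + x ^ 2) * (τ1 ^ 2 - x ^ 2) ≤ 0 :=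
        mul_nonpos_of_nonneg_of_nonpos (by positivity) e4
      exact mul_nonneg_of_nonpos_of_nonpos e5
        (mul_nonpos_of_nonpos_of_nonneg e3 (Real.sqrt_nonneg _))
  have hG11 : 0 < (G 1).re := by
    have c3 : sq ((1 : ℂ) ^ 2 + (τ2 : ℂ) ^ 2) = ((Real.sqrt (1 + τ2 ^ 2) : ℝ) : ℂ) := by
      rw [← sq_of_nonneg (by positivity)]; push_cast; congr 1; ring
    have c4 : G 1 = ((2 / 4 * ((1 + τ1 ^ 2) * Real.sqrt (1 + τ2 ^ 2)) : ℝ) : ℂ) * deriv F 0 := by
      simp only [hGdef]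
      rw [c3]
      have : ((1 : ℂ) - 1) / (1 + 1) = 0 := by norm_num
      rw [this]
      push_cast
      ring
    rw [c4, Complex.re_ofReal_mul]
    have : 0 < Real.sqrt (1 + τ2 ^ 2) := Real.sqrt_pos.2 (by positivity)
    positivity
  have hGpos : ∀ k : ℂ, 0 < k.re → 0 < k.im → 0 < (G k).re := fun k hk1 hk2 =>
    re_pos_of_quadrant G hG _ _ hgrow hre him hG11 hk1 hk2
  -- injectivity on the strip
  have hinj : InjOn (fun L => F ((1 - K L) / (1 + K L))) Strip := by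
    refine injOn_of_re_pos convex_strip _
      (fun L => (c : ℂ) * I * G (K L)) (-I) ?_ ?_
    · intro L hL
      obtain ⟨hk1, hk2⟩ := hKQ L hL
      have hne := one_add_ne hk1.le
      have e1 := hKd L hL
      have e2 : HasDerivAt (fun k : ℂ => (1 - k) / (1 + k)) (-2 / (1 + K L) ^ 2) (K L) := by
        have f1 : HasDerivAt (fun k : ℂ => 1 - k) (-1) (K L) := by
          simpa using (hasDerivAt_id (K L)).const_sub 1
        have f2 : HasDerivAt (fun k : ℂ => 1 + k) 1 (K L) := by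
          simpa using (hasDerivAt_id (K L)).const_add 1
        have f3 := f1.div f2 hne
        have f4 : (-2 : ℂ) / (1 + K L) ^ 2 = ((-1) * (1 + K L) - (1 - K L) * 1) / (1 + K L) ^ 2 := by
          congr 1; ring
        rw [f4]
        exact f3
      have e3 := (hF ((1 - K L) / (1 + K L))).hasDerivAt
      have e4 := HasDerivAt.comp (K L) e3 e2
      have e5 := HasDerivAt.comp L e4 e1
      have e6 : (c : ℂ) * I * G (K L) = deriv F ((1 - K L) / (1 + K L)) * (-2 / (1 + K L) ^ 2) *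
        (-(c * I) * (((K L) ^ 2 + (τ1 : ℂ) ^ 2) * sq ((K L) ^ 2 + (τ2 : ℂ) ^ 2))) := by
        simp only [hGdef]
        field_simp
      show HasDerivAt (fun L => F ((1 - K L) / (1 + K L))) ((c : ℂ) * I * G (K L)) L
      rw [e6]
      exact e5
    · intro L hL
      obtain ⟨hk1, hk2⟩ := hKQ L hL
      have e1 : -I * ((c : ℂ) * I * G (K L)) = (c : ℂ) * G (K L) := by
        linear_combination (-(c : ℂ) * G (K L)) * I_sq
      show 0 < (-I * ((c : ℂ) * I * G (K L))).re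
      rw [e1, Complex.re_ofReal_mul]
      exact mul_pos hc (hGpos _ hk1 hk2)
  -- transfer
  have hk : ∀ z : ℂ, ‖z‖ < 1 → z.im < 0 → 0 < ((1 - z) / (1 + z)).re ∧ 0 < ((1 - z) / (1 + z)).im ∧
      (1 - (1 - z) / (1 + z)) / (1 + (1 - z) / (1 + z)) = z := by
    intro z hz1 hz2
    have hne : 1 + z ≠ 0 := by
      intro h
      have := congrArg Complex.im h
      simp at this
      linarith
    have hnp : 0 < normSq (1 + z) := Complex.normSq_pos.2 hne
    have hn : z.re * z.re + z.im * z.im < 1 := by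
      rw [← Complex.normSq_apply, ← Complex.sq_norm]
      have := norm_nonneg z
      nlinarith
    refine ⟨?_, ?_, ?_⟩
    · rw [Complex.div_re]
      have : (1 - z).re * (1 + z).re / normSq (1 + z) + (1 - z).im * (1 + z).im / normSq (1 + z) =
        (1 - (z.re * z.re + z.im * z.im)) / normSq (1 + z) := by
        simp; field_simp; ring
      rw [this]
      exact div_pos (by linarith) hnp
    · rw [Complex.div_im]
      have : (1 - z).im * (1 + z).re / normSq (1 + z) - (1 - z).re * (1 + z).im / normSq (1 + z) =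
        (-2 * z.im) / normSq (1 + z) := by
        simp; field_simp; ring
      rw [this]
      exact div_pos (by linarith) hnp
    · have h3 : 1 + (1 - z) / (1 + z) = 2 / (1 + z) := by field_simp; ring
      have h4 : 1 - (1 - z) / (1 + z) = 2 * z / (1 + z) := by field_simp; ring
      rw [h3, h4]; field_simp
  intro z hz w hw hzw
  obtain ⟨p1, p2, p3⟩ := hk z hz.1 hz.2
  obtain ⟨q1, q2, q3⟩ := hk w hw.1 hw.2
  obtain ⟨L, hL, hLz⟩ := hKs _ p1 p2
  obtain ⟨L', hL', hLw⟩ := hKs _ q1 q2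
  have h5 : L = L' := by
    apply hinj hL hL'
    show F ((1 - K L) / (1 + K L)) = F ((1 - K L') / (1 + K L'))
    rw [hLz, hLw, p3, q3, hzw]
  rw [← p3, ← q3, ← hLz, ← hLw, h5]

end Pool.Agent.TH533.Uni
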