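import Pool.Agent.TH533.UniCrit

set_option autoImplicit false

namespace Pool.Agent.TH533.Uni

open Complex Set Filter Topology

lemma deriv_conj_of (F : ℂ → ℂ) (hF : Differentiable ℂ F)
    (hconj : ∀ z, F ((starRingEnd ℂ) z) = (starRingEnd ℂ) (F z)) (z : ℂ) :
    deriv F ((starRingEnd ℂ) z) = (starRingEnd ℂ) (deriv F z) := by
  have h1 := (hF z).hasDerivAt.conj_conj
  have h2 : ((starRingEnd ℂ) ∘ F ∘ (starRingEnd ℂ)) = F := by
    funext w
    simp only [Function.comp_apply]
    rw [hconj, Complex.conj_conj]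
  rw [h2] at h1
  exact h1.deriv

/-- the open upper half disc -/
def UH : Set ℂ := {z : ℂ | ‖z‖ < 1} ∩ {z : ℂ | 0 < z.im}

lemma isOpen_UH : IsOpen UH :=
  (isOpen_lt continuous_norm continuous_const).inter (isOpen_lt continuous_const Complex.continuous_im)

lemma convex_UH : Convex ℝ UH := by
  have h1 : Convex ℝ {z : ℂ | ‖z‖ < 1} := by
    have : {z : ℂ | ‖z‖ < 1} = Metric.ball 0 1 := by ext z; simp
    rw [this]; exact convex_ball 0 1
  exact h1.inter (convex_halfSpace_im_gt 0)

lemma closure_UH : closure UH ⊆ {z : ℂ | ‖z‖ ≤ 1 ∧ 0 ≤ z.im} := by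
  apply closure_minimal
  · intro z hz
    exact ⟨le_of_lt hz.1, le_of_lt hz.2⟩
  · exact (isClosed_le continuous_norm continuous_const).inter
      (isClosed_le continuous_const Complex.continuous_im)

lemma mem_closure_UH {z : ℂ} (h1 : ‖z‖ < 1) (h2 : 0 ≤ z.im) : z ∈ closure UH := by
  rw [Metric.mem_closure_iff]
  intro ε hε
  set η := min (ε / 2) ((1 - ‖z‖) / 2) with hη
  have hηp : 0 < η := lt_min (by linarith) (by linarith)
  refine ⟨z + η * I, ⟨?_, ?_⟩, ?_⟩
  · show ‖z + η * I‖ < 1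
    have h3 : ‖z + η * I‖ ≤ ‖z‖ + η := by
      refine (norm_add_le _ _).trans ?_
      simp [abs_of_pos hηp]
    have h4 : η ≤ (1 - ‖z‖) / 2 := min_le_right _ _
    linarith
  · show 0 < (z + η * I).im
    simp; linarith
  · rw [dist_eq_norm]
    have : z - (z + η * I) = -(η * I) := by ring
    rw [this, norm_neg]
    simp [abs_of_pos hηp]
    have h4 : η ≤ ε / 2 := min_le_left _ _
    linarith

theorem im_nonneg (F : ℂ → ℂ) (hF : Differentiable ℂ F)
    (hconj : ∀ z, F ((starRingEnd ℂ) z) = (starRingEnd ℂ) (F z))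
    (him : ∀ t : ℝ, 0 ≤ t → t ≤ Real.pi → 0 ≤ (F (Complex.exp ((t : ℂ) * I))).im)
    {z : ℂ} (h1 : ‖z‖ < 1) (h2 : 0 ≤ z.im) : 0 ≤ (F z).im := by
  have hb : Bornology.IsBounded UH := by
    apply (Metric.isBounded_ball (x := (0 : ℂ)) (r := 1)).subset
    intro w hw
    simpa using hw.1
  have hd : DiffContOnCl ℂ (fun w => Complex.exp (I * F w)) UH := by
    apply Differentiable.diffContOnCl
    exact (hF.const_mul I).cexp
  have h3 : ‖Complex.exp (I * F z)‖ ≤ 1 := by
    refine Complex.norm_le_of_forall_mem_frontier_norm_le hb hd ?_ (mem_closure_UH h1 h2)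
    intro w hw
    have hw1 := closure_UH hw.1
    have hw2 : ¬ (w ∈ UH) := by
      have := hw.2
      rwa [isOpen_UH.interior_eq] at this
    have h4 : 0 ≤ (F w).im := by
      rcases hw1.2.eq_or_lt with h5 | h5
      · have h6 : (starRingEnd ℂ) w = w := by
          apply Complex.ext
          · simp
          · simp; rw [← h5]; simp
        have h7 := hconj w
        rw [h6] at h7
        have h8 := congrArg Complex.im h7
        rw [Complex.conj_im] at h8
        linarith
      · have h6 : ‖w‖ = 1 := by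
          by_contra h
          exact hw2 ⟨lt_of_le_of_ne hw1.1 h, h5⟩
        have h7 : w = Complex.exp ((Complex.arg w : ℂ) * I) := by
          have := Complex.norm_mul_exp_arg_mul_I w
          rw [h6] at this
          simpa using this.symm
        rw [h7]
        exact him _ (Complex.arg_nonneg_iff.2 hw1.2) (Complex.arg_le_pi w)
    rw [Complex.norm_exp]
    have : (I * F w).re = -(F w).im := by simp
    rw [this]
    exact Real.exp_le_one_iff.2 (by linarith)
  rw [Complex.norm_exp, Real.exp_le_one_iff] at h3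
  have : (I * F z).re = -(F z).im := by simp
  rw [this] at h3
  linarith

lemma slope_tendsto (F : ℂ → ℂ) (hF : Differentiable ℂ F)
    (hconj : ∀ z, F ((starRingEnd ℂ) z) = (starRingEnd ℂ) (F z)) (x : ℝ) :
    Tendsto (fun y : ℝ => y⁻¹ * (F ((x : ℂ) + (y : ℂ) * I)).im) (𝓝[>] 0) (𝓝 (deriv F x).re) := by
  have h1 : HasDerivAt (fun y : ℂ => -I * F ((x : ℂ) + y * I)) (deriv F x) (((0 : ℝ) : ℂ)) := by
    have e1 : HasDerivAt (fun y : ℂ => (x : ℂ) + y * I) I (((0 : ℝ) : ℂ)) := by
      simpa using ((hasDerivAt_id (((0 : ℝ) : ℂ))).mul_const I).const_add (x : ℂ)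
    have e2 : HasDerivAt F (deriv F ((x : ℂ) + (((0 : ℝ) : ℂ)) * I)) ((x : ℂ) + (((0 : ℝ) : ℂ)) * I) :=
      (hF _).hasDerivAt
    have e3 := (HasDerivAt.comp (((0 : ℝ) : ℂ)) e2 e1).const_mul (-I)
    have e4 : -I * (deriv F ((x : ℂ) + (((0 : ℝ) : ℂ)) * I) * I) = deriv F x := by
      have : (x : ℂ) + (((0 : ℝ) : ℂ)) * I = x := by simp
      rw [this]
      linear_combination (-(deriv F x)) * I_sq
    rw [e4] at e3
    exact e3
  have h2 := h1.real_of_complex
  rw [hasDerivAt_iff_tendsto_slope_zero] at h2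
  have h3 : 𝓝[>] (0 : ℝ) ≤ 𝓝[≠] 0 := nhdsWithin_mono 0 (fun y hy => ne_of_gt hy)
  have h4 := h2.mono_left h3
  refine h4.congr' ?_
  filter_upwards with y
  have hx0 : (F x).im = 0 := by
    have h7 := hconj x
    rw [Complex.conj_ofReal] at h7
    have h8 := congrArg Complex.im h7
    rw [Complex.conj_im] at h8
    linarith
  simp only [smul_eq_mul]
  congr 1
  simp [hx0]

theorem deriv_re_nonneg (F : ℂ → ℂ) (hF : Differentiable ℂ F)
    (hconj : ∀ z, F ((starRingEnd ℂ) z) = (starRingEnd ℂ) (F z))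
    (him : ∀ t : ℝ, 0 ≤ t → t ≤ Real.pi → 0 ≤ (F (Complex.exp ((t : ℂ) * I))).im)
    (x : ℝ) (hx1 : -1 ≤ x) (hx2 : x ≤ 1) : 0 ≤ (deriv F x).re := by
  have hF' : Differentiable ℂ (deriv F) := by
    have h := hF.differentiableOn (s := univ)
    exact differentiableOn_univ.1 (h.deriv isOpen_univ)
  have hclosed : IsClosed {x : ℝ | 0 ≤ (deriv F x).re} := by
    apply isClosed_le continuous_const
    exact Complex.continuous_re.comp (hF'.continuous.comp Complex.continuous_ofReal)
  have hsub : Ioo (-1 : ℝ) 1 ⊆ {x : ℝ | 0 ≤ (deriv F x).re} := by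
    intro s hs
    refine ge_of_tendsto (slope_tendsto F hF hconj s) ?_
    have hs' : |s| < 1 := abs_lt.2 hs
    have h1 : ∀ᶠ y : ℝ in 𝓝[>] 0, y < 1 - |s| := by
      apply Filter.Eventually.filter_mono nhdsWithin_le_nhds
      exact eventually_lt_nhds (by linarith)
    filter_upwards [h1, self_mem_nhdsWithin] with y hy1 hy2
    have hy2' : 0 < y := hy2
    apply mul_nonneg (by positivity)
    apply im_nonneg F hF hconj him
    · refine lt_of_le_of_lt (norm_add_le _ _) ?_
      rw [norm_mul, Complex.norm_real, Complex.norm_real, Complex.norm_I, mul_one,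
        Real.norm_eq_abs, Real.norm_eq_abs, abs_of_pos hy2']
      linarith
    · simp; exact hy2'.le
  have h2 := closure_minimal hsub hclosed
  rw [closure_Ioo (by norm_num)] at h2
  exact h2 ⟨hx1, hx2⟩

theorem im_pos (F : ℂ → ℂ) (hF : Differentiable ℂ F)
    (hconj : ∀ z, F ((starRingEnd ℂ) z) = (starRingEnd ℂ) (F z))
    (h00 : 0 < (deriv F 0).re)
    (him : ∀ t : ℝ, 0 ≤ t → t ≤ Real.pi → 0 ≤ (F (Complex.exp ((t : ℂ) * I))).im)
    {z : ℂ} (h1 : ‖z‖ < 1) (h2 : 0 < z.im) : 0 < (F z).im := by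
  rcases (im_nonneg F hF hconj him h1 h2.le).lt_or_eq with h | h
  · exact h
  exfalso
  have hd : DifferentiableOn ℂ (fun w => Complex.exp (I * F w)) UH :=
    ((hF.const_mul I).cexp).differentiableOn
  have hre : ∀ w : ℂ, (I * F w).re = -(F w).im := fun w => by simp
  have hmax : IsMaxOn (norm ∘ fun w => Complex.exp (I * F w)) UH z := by
    intro w hw
    simp only [Function.comp_apply, Set.mem_ofPred_eq]
    rw [Complex.norm_exp, Complex.norm_exp, hre, hre, ← h]
    apply Real.exp_le_exp.2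
    have := im_nonneg F hF hconj him hw.1 (le_of_lt hw.2)
    linarith
  have hconst := Complex.norm_eqOn_of_isPreconnected_of_isMaxOn convex_UH.isPreconnected isOpen_UH
    hd (⟨h1, h2⟩ : z ∈ UH) hmax
  have hzero : ∀ w ∈ UH, (F w).im = 0 := by
    intro w hw
    have h3 := hconst hw
    simp only [Function.comp_apply, Function.const_apply] at h3
    rw [Complex.norm_exp, Complex.norm_exp, hre, hre, ← h] at h3
    have h4 := Real.exp_injective h3
    linarith
  have h5 := slope_tendsto F hF hconj 0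
  have h6 : (fun y : ℝ => y⁻¹ * (F (((0 : ℝ) : ℂ) + (y : ℂ) * I)).im) =ᶠ[𝓝[>] 0] fun _ => 0 := by
    have h1 : ∀ᶠ y : ℝ in 𝓝[>] 0, y < 1 := by
      apply Filter.Eventually.filter_mono nhdsWithin_le_nhds
      exact eventually_lt_nhds (by linarith)
    filter_upwards [h1, self_mem_nhdsWithin] with y hy1 hy2
    have hy2' : 0 < y := hy2
    rw [hzero, mul_zero]
    constructor
    · show ‖((0 : ℝ) : ℂ) + (y : ℂ) * I‖ < 1
      simp [abs_of_pos hy2', hy1]
    · show 0 < (((0 : ℝ) : ℂ) + (y : ℂ) * I).im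
      simp [hy2']
  have h7 : Tendsto (fun _ : ℝ => (0 : ℝ)) (𝓝[>] (0 : ℝ)) (𝓝 (deriv F ((0 : ℝ) : ℂ)).re) :=
    h5.congr' h6
  have h8 := tendsto_nhds_unique h7 tendsto_const_nhds
  rw [Complex.ofReal_zero] at h8
  linarith

theorem real_inj (F : ℂ → ℂ) (hF : Differentiable ℂ F)
    (hconj : ∀ z, F ((starRingEnd ℂ) z) = (starRingEnd ℂ) (F z))
    (h00 : 0 < (deriv F 0).re)
    (him : ∀ t : ℝ, 0 ≤ t → t ≤ Real.pi → 0 ≤ (F (Complex.exp ((t : ℂ) * I))).im)
    {x y : ℝ} (hx1 : -1 ≤ x) (hxy : x < y) (hy : y ≤ 1) : F x ≠ F y := by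
  intro heq
  have hF' : Differentiable ℂ (deriv F) := by
    have h := hF.differentiableOn (s := univ)
    exact differentiableOn_univ.1 (h.deriv isOpen_univ)
  have hder : ∀ s : ℝ, HasDerivAt (fun s : ℝ => (F s).re) (deriv F s).re s := fun s =>
    (hF s).hasDerivAt.real_of_complex
  have hmono : MonotoneOn (fun s : ℝ => (F s).re) (Icc (-1) 1) := by
    apply monotoneOn_of_hasDerivWithinAt_nonneg (convex_Icc (-1) 1) (f' := fun s => (deriv F s).re)
    · exact fun s _ => (hder s).continuousAt.continuousWithinAt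
    · exact fun s _ => (hder s).hasDerivWithinAt
    · intro s hs
      rw [interior_Icc] at hs
      exact deriv_re_nonneg F hF hconj him s hs.1.le hs.2.le
  have hconst : ∀ s ∈ Ioo x y, (F s).re = (F x).re := by
    intro s hs
    have e1 : (F x).re ≤ (F s).re :=
      hmono ⟨hx1, by linarith⟩ ⟨by linarith [hs.1], by linarith [hs.2]⟩ hs.1.le
    have e2 : (F s).re ≤ (F y).re :=
      hmono ⟨by linarith [hs.1], by linarith [hs.2]⟩ ⟨by linarith, hy⟩ hs.2.le
    rw [← heq] at e2
    exact le_antisymm e2 e1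
  have hderiv0 : ∀ s ∈ Ioo x y, deriv F s = 0 := by
    intro s hs
    have e1 : HasDerivAt (fun _ : ℝ => (F x).re) (deriv F s).re s := by
      refine (hder s).congr_of_eventuallyEq ?_
      filter_upwards [isOpen_Ioo.mem_nhds hs] with u hu
      exact (hconst u hu).symm
    have e2 := e1.unique (hasDerivAt_const s _)
    apply Complex.ext
    · simpa using e2
    · have e3 := deriv_conj_of F hF hconj s
      rw [Complex.conj_ofReal] at e3
      have e4 := congrArg Complex.im e3
      rw [Complex.conj_im] at e4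
      simp only [Complex.zero_im]
      linarith
  have hfreq : ∃ᶠ z in 𝓝[≠] ((((x + y) / 2 : ℝ)) : ℂ), deriv F z = 0 := by
    have e1 : Tendsto (fun s : ℝ => (s : ℂ)) (𝓝[≠] ((x + y) / 2)) (𝓝[≠] ((((x + y) / 2 : ℝ)) : ℂ)) := by
      apply tendsto_nhdsWithin_of_tendsto_nhds_of_eventually_within
      · exact (Complex.continuous_ofReal.tendsto _).mono_left nhdsWithin_le_nhds
      · filter_upwards [self_mem_nhdsWithin] with s hs
        intro h
        exact hs (Complex.ofReal_injective h)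
    apply e1.frequently
    apply Filter.Eventually.frequently
    have : Ioo x y ∈ 𝓝 ((x + y) / 2) := isOpen_Ioo.mem_nhds ⟨by linarith, by linarith⟩
    filter_upwards [mem_nhdsWithin_of_mem_nhds this] with s hs
    exact hderiv0 s hs
  have hA : AnalyticOnNhd ℂ (deriv F) univ := hF'.differentiableOn.analyticOnNhd isOpen_univ
  have h9 := hA.eqOn_zero_of_preconnected_of_frequently_eq_zero isPreconnected_univ (mem_univ _) hfreq
  have h10 : deriv F 0 = 0 := h9 (mem_univ 0)
  rw [h10] at h00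
  simp at h00

/-- The univalence criterion: `F` entire and real on the real axis, `Im F ≥ 0` on the upper unit
semicircle, and the boundary curve has at most one turn of each kind. -/
theorem criterion (F : ℂ → ℂ) (hF : Differentiable ℂ F)
    (hconj : ∀ z, F ((starRingEnd ℂ) z) = (starRingEnd ℂ) (F z))
    (t1 t2 : ℝ) (h0 : 0 < t1) (h12 : t1 < t2) (h2 : t2 < Real.pi)
    (h00 : 0 < (deriv F 0).re)
    (him : ∀ t : ℝ, 0 ≤ t → t ≤ Real.pi → 0 ≤ (F (Complex.exp ((t : ℂ) * I))).im)
    (hv1 : ∀ t : ℝ, 0 < t → t < t1 →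
      0 ≤ (Complex.exp ((t : ℂ) * I) * deriv F (Complex.exp ((t : ℂ) * I))).re)
    (hv2 : ∀ t : ℝ, t1 ≤ t → t ≤ t2 →
      (Complex.exp ((t : ℂ) * I) * deriv F (Complex.exp ((t : ℂ) * I))).re ≤ 0)
    (hu : ∀ t : ℝ, t2 ≤ t → t < Real.pi →
      (Complex.exp ((t : ℂ) * I) * deriv F (Complex.exp ((t : ℂ) * I))).im ≤ 0) :
    InjOn F (Metric.ball 0 1) := by
  have hlow := injOn_lower F hF (deriv_conj_of F hF hconj) t1 t2 h0 h12 h2
    (deriv_re_nonneg F hF hconj him) h00 hv1 hv2 hu
  have hneg : ∀ z : ℂ, ‖z‖ < 1 → z.im < 0 → (F z).im < 0 := by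
    intro z hz1 hz2
    have h3 := im_pos F hF hconj h00 him (z := (starRingEnd ℂ) z) (by simpa using hz1) (by simpa using hz2)
    rw [hconj, Complex.conj_im] at h3
    linarith
  have hzero : ∀ z : ℂ, z.im = 0 → (F z).im = 0 := by
    intro z hz
    have h6 : (starRingEnd ℂ) z = z := by
      apply Complex.ext
      · simp
      · simp [hz]
    have h7 := hconj z
    rw [h6] at h7
    have h8 := congrArg Complex.im h7
    rw [Complex.conj_im] at h8
    linarith
  intro z hz w hw hzw
  rw [mem_ball_zero_iff] at hz hw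
  have him_eq : (F z).im = (F w).im := by rw [hzw]
  rcases lt_trichotomy z.im 0 with hz' | hz' | hz' <;> rcases lt_trichotomy w.im 0 with hw' | hw' | hw'
  · exact hlow ⟨hz, hz'⟩ ⟨hw, hw'⟩ hzw
  · exfalso; linarith [hneg z hz hz', hzero w hw']
  · exfalso; linarith [hneg z hz hz', im_pos F hF hconj h00 him hw hw']
  · exfalso; linarith [hneg w hw hw', hzero z hz']
  · have ez : z = ((z.re : ℝ) : ℂ) := by apply Complex.ext <;> simp [hz']
    have ew : w = ((w.re : ℝ) : ℂ) := by apply Complex.ext <;> simp [hw']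
    have bz : |z.re| < 1 := lt_of_le_of_lt (Complex.abs_re_le_norm z) hz
    have bw : |w.re| < 1 := lt_of_le_of_lt (Complex.abs_re_le_norm w) hw
    rw [abs_lt] at bz bw
    rcases lt_trichotomy z.re w.re with h | h | h
    · exfalso
      apply real_inj F hF hconj h00 him bz.1.le h bw.2.le
      rw [← ez, ← ew, hzw]
    · rw [ez, ew, h]
    · exfalso
      apply real_inj F hF hconj h00 him bw.1.le h bz.2.le
      rw [← ez, ← ew, hzw]
  · exfalso; linarith [hzero z hz', im_pos F hF hconj h00 him hw hw']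
  · exfalso; linarith [hneg w hw hw', im_pos F hF hconj h00 him hz hz']
  · exfalso; linarith [hzero w hw', im_pos F hF hconj h00 him hz hz']
  · have h3 : (starRingEnd ℂ) z = (starRingEnd ℂ) w := by
      apply hlow ⟨by simpa using hz, by simpa using hz'⟩ ⟨by simpa using hw, by simpa using hw'⟩
      rw [hconj, hconj, hzw]
    exact (starRingEnd ℂ).injective h3

end Pool.Agent.TH533.Uni
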