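import Pool.Agent.TH533.UniV

set_option autoImplicit false

namespace Pool.Agent.TH533.Uni

open Complex

lemma hasDerivAt_prod_aux (c : ℕ → ℝ) (m : ℕ) (t : ℝ) :
    HasDerivAt (fun t : ℝ => ∏ k ∈ Finset.range m, (Real.cos (t / 2) - c k) ^ 2)
      ((∏ k ∈ Finset.range m, (Real.cos (t / 2) - c k) ^ 2) *
        ∑ k ∈ Finset.range m, (-(Real.sin (t / 2) / (Real.cos (t / 2) - c k)))) t := by
  induction m with
  | zero => simpa using hasDerivAt_const t (1 : ℝ)
  | succ m ih =>
    have h1 : HasDerivAt (fun t : ℝ => t / 2) (1 / 2) t := by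
      simpa using (hasDerivAt_id t).div_const 2
    have h2 : HasDerivAt (fun t : ℝ => Real.cos (t / 2) - c m) (-Real.sin (t / 2) * (1 / 2)) t := by
      have := (Real.hasDerivAt_cos (t / 2)).comp t h1
      exact this.sub_const (c m)
    have h3 : HasDerivAt (fun t : ℝ => (Real.cos (t / 2) - c m) ^ 2)
        (2 * (Real.cos (t / 2) - c m) * (-Real.sin (t / 2) * (1 / 2))) t := by
      have h2' := h2.fun_pow 2
      simpa using h2'
    have h4 := ih.mul h3
    have h5 : ∀ t : ℝ, ∏ k ∈ Finset.range (m + 1), (Real.cos (t / 2) - c k) ^ 2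
        = (∏ k ∈ Finset.range m, (Real.cos (t / 2) - c k) ^ 2) * (Real.cos (t / 2) - c m) ^ 2 := by
      intro t; rw [Finset.prod_range_succ]
    simp_rw [h5]
    rw [Finset.sum_range_succ]
    have h6 : (∏ k ∈ Finset.range m, (Real.cos (t / 2) - c k) ^ 2) * (Real.cos (t / 2) - c m) ^ 2 *
        (∑ k ∈ Finset.range m, -(Real.sin (t / 2) / (Real.cos (t / 2) - c k)) +
          -(Real.sin (t / 2) / (Real.cos (t / 2) - c m)))
        = ((∏ k ∈ Finset.range m, (Real.cos (t / 2) - c k) ^ 2) *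
        ∑ k ∈ Finset.range m, (-(Real.sin (t / 2) / (Real.cos (t / 2) - c k)))) * (Real.cos (t / 2) - c m) ^ 2
        + (∏ k ∈ Finset.range m, (Real.cos (t / 2) - c k) ^ 2) *
          (2 * (Real.cos (t / 2) - c m) * (-Real.sin (t / 2) * (1 / 2))) := by
      by_cases hc : Real.cos (t / 2) - c m = 0
      · rw [hc]; simp
      · field_simp
    rw [h6]
    exact h4

/-- logarithmic derivative of `v` -/
noncomputable def Lam (n : ℕ) (t : ℝ) : ℝ := Real.cos t / Real.sin t +
  ∑ k ∈ Finset.range n, (-(Real.sin (t / 2) / (Real.cos (t / 2) - Real.cos (((k : ℝ) + 2) * th n))))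

lemma v_deriv (n : ℕ) {t : ℝ} (h0 : 0 < t) (h1 : t < Real.pi) :
    (bz t * deriv (Fm n) (bz t)).re = KK n * Real.sin t * Pr n t * Lam n t := by
  have h2 := hasDerivAt_im (Fm n) (differentiable_Fm n) t
  have h3 : HasDerivAt (Pr n) (Pr n t * ∑ k ∈ Finset.range n,
      (-(Real.sin (t / 2) / (Real.cos (t / 2) - Real.cos (((k : ℝ) + 2) * th n))))) t :=
    hasDerivAt_prod_aux _ n t
  have h4 : HasDerivAt (fun t : ℝ => KK n * Real.sin t * Pr n t)
      (KK n * Real.cos t * Pr n t + KK n * Real.sin t * (Pr n t * ∑ k ∈ Finset.range n,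
      (-(Real.sin (t / 2) / (Real.cos (t / 2) - Real.cos (((k : ℝ) + 2) * th n)))))) t :=
    ((Real.hasDerivAt_sin t).const_mul (KK n)).mul h3
  have h5 : HasDerivAt (fun t : ℝ => (Fm n (bz t)).im)
      (KK n * Real.cos t * Pr n t + KK n * Real.sin t * (Pr n t * ∑ k ∈ Finset.range n,
      (-(Real.sin (t / 2) / (Real.cos (t / 2) - Real.cos (((k : ℝ) + 2) * th n)))))) t := by
    refine h4.congr_of_eventuallyEq ?_
    filter_upwards [isOpen_Ioo.mem_nhds (⟨h0, h1⟩ : t ∈ Set.Ioo 0 Real.pi)] with s hs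
    exact v_prod n hs.1.le hs.2.le
  rw [h2.unique h5]
  unfold Lam
  have h6 : Real.sin t ≠ 0 := (Real.sin_pos_of_pos_of_lt_pi h0 h1).ne'
  generalize (∑ k ∈ Finset.range n,
      (-(Real.sin (t / 2) / (Real.cos (t / 2) - Real.cos (((k : ℝ) + 2) * th n))))) = Q at *
  field_simp

lemma four_th_le (n : ℕ) (hn : 1 ≤ n) : 4 * th n ≤ Real.pi := by
  have h1 := th_mul n
  have h2 := th_pos n
  have h3 : (1 : ℝ) ≤ n := by exact_mod_cast hn
  nlinarith

lemma factor_pos (n : ℕ) {k : ℕ} (hk : k < n) {t : ℝ} (h0 : 0 < t) (h1 : t < 4 * th n) :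
    0 < Real.cos (t / 2) - Real.cos (((k : ℝ) + 2) * th n) := by
  have h2 := th_pos n
  have h3 := th_mul n
  have hk' : (k : ℝ) + 1 ≤ n := by exact_mod_cast hk
  have hk0 : (0 : ℝ) ≤ k := Nat.cast_nonneg k
  have h4 : Real.cos (((k : ℝ) + 2) * th n) < Real.cos (t / 2) := by
    apply Real.cos_lt_cos_of_nonneg_of_le_pi (by linarith)
    · nlinarith
    · nlinarith
  linarith

lemma Pr_pos (n : ℕ) {t : ℝ} (h0 : 0 < t) (h1 : t < 4 * th n) : 0 < Pr n t := by
  unfold Pr
  apply Finset.prod_pos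
  intro k hk
  exact pow_pos (factor_pos n (Finset.mem_range.1 hk) h0 h1) 2

lemma Pr_nonneg (n : ℕ) (t : ℝ) : 0 ≤ Pr n t := by
  unfold Pr
  apply Finset.prod_nonneg
  intro k _
  positivity

lemma Lam_anti (n : ℕ) (hn : 1 ≤ n) {s t : ℝ} (h0 : 0 < s) (hst : s < t) (h1 : t < 4 * th n) :
    Lam n t < Lam n s := by
  have h4 := four_th_le n hn
  have hpi := Real.pi_pos
  have hsin_s : 0 < Real.sin s := Real.sin_pos_of_pos_of_lt_pi h0 (by linarith)
  have hsin_t : 0 < Real.sin t := Real.sin_pos_of_pos_of_lt_pi (by linarith) (by linarith)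
  have hcot : Real.cos t / Real.sin t < Real.cos s / Real.sin s := by
    rw [div_lt_div_iff₀ hsin_t hsin_s]
    have h5 : 0 < Real.sin (t - s) := Real.sin_pos_of_pos_of_lt_pi (by linarith) (by linarith)
    rw [Real.sin_sub] at h5
    linarith
  unfold Lam
  have hsum : ∑ k ∈ Finset.range n, (-(Real.sin (t / 2) / (Real.cos (t / 2) - Real.cos (((k : ℝ) + 2) * th n))))
      ≤ ∑ k ∈ Finset.range n, (-(Real.sin (s / 2) / (Real.cos (s / 2) - Real.cos (((k : ℝ) + 2) * th n)))) := by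
    apply Finset.sum_le_sum
    intro k hk
    have hk' := Finset.mem_range.1 hk
    have p1 := factor_pos n hk' h0 (by linarith)
    have p2 := factor_pos n hk' (by linarith) h1
    have p3 : Real.sin (s / 2) ≤ Real.sin (t / 2) := by
      apply Real.sin_le_sin_of_le_of_le_pi_div_two <;> linarith
    have p4 : Real.cos (t / 2) ≤ Real.cos (s / 2) := by
      apply Real.cos_le_cos_of_nonneg_of_le_pi <;> linarith
    have p5 : 0 ≤ Real.sin (s / 2) := Real.sin_nonneg_of_nonneg_of_le_pi (by linarith) (by linarith)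
    apply neg_le_neg
    apply div_le_div₀ (by linarith) p3 p2 (by linarith)
  linarith

theorem v_unimodal (n : ℕ) (hn : 1 ≤ n) : ∃ t1 : ℝ, 0 < t1 ∧ t1 < 4 * th n ∧
    (∀ t : ℝ, 0 < t → t < t1 → 0 ≤ (bz t * deriv (Fm n) (bz t)).re) ∧
    (∀ t : ℝ, t1 ≤ t → t < 4 * th n → (bz t * deriv (Fm n) (bz t)).re ≤ 0) := by
  have h4 := four_th_le n hn
  have hth := th_pos n
  have hK := KK_pos n
  have hcont : ContinuousOn (fun t : ℝ => (Fm n (bz t)).im) (Set.Icc 0 (4 * th n)) :=
    (Complex.continuous_im.comp ((differentiable_Fm n).continuous.comp continuous_bz)).continuousOn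
  have hv0 : (Fm n (bz 0)).im = 0 := by
    rw [v_prod n le_rfl (by positivity)]; simp
  have hv4 : (Fm n (bz (4 * th n))).im = 0 := by
    rw [v_prod n (by positivity) h4]
    have : Pr n (4 * th n) = 0 := by
      unfold Pr
      apply Finset.prod_eq_zero (Finset.mem_range.2 (by omega : 0 < n))
      have : 4 * th n / 2 = (((0 : ℕ) : ℝ) + 2) * th n := by push_cast; ring
      rw [this]; simp
    rw [this]; ring
  obtain ⟨t1, ht1, ht1'⟩ := exists_hasDerivAt_eq_zero (f := fun t : ℝ => (Fm n (bz t)).im)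
    (f' := fun t => (bz t * deriv (Fm n) (bz t)).re) (by positivity : (0 : ℝ) < 4 * th n) hcont
    (by rw [hv0, hv4]) (fun t _ => hasDerivAt_im (Fm n) (differentiable_Fm n) t)
  have hpos : ∀ t : ℝ, 0 < t → t < 4 * th n → 0 < KK n * Real.sin t * Pr n t := by
    intro t h0 h1
    have := Real.sin_pos_of_pos_of_lt_pi h0 (by linarith)
    have := Pr_pos n h0 h1
    positivity
  have hL : Lam n t1 = 0 := by
    have h5 := v_deriv n ht1.1 (by linarith [ht1.2])
    rw [ht1'] at h5
    have h6 := hpos t1 ht1.1 ht1.2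
    rcases mul_eq_zero.1 h5.symm with h | h
    · exact absurd h h6.ne'
    · exact h
  refine ⟨t1, ht1.1, ht1.2, ?_, ?_⟩
  · intro t h0 h1
    rw [v_deriv n h0 (by linarith [ht1.2])]
    have h6 := hpos t h0 (by linarith [ht1.2])
    have h7 := Lam_anti n hn h0 h1 ht1.2
    rw [hL] at h7
    positivity
  · intro t h0 h1
    rw [v_deriv n (by linarith [ht1.1]) (by linarith)]
    have h6 := hpos t (by linarith [ht1.1]) h1
    rcases h0.eq_or_lt with h | h
    · rw [← h, hL]; simp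
    · have h7 := Lam_anti n hn ht1.1 h h1
      rw [hL] at h7
      exact mul_nonpos_of_nonneg_of_nonpos h6.le h7.le

end Pool.Agent.TH533.Uni
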