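import Pool.Agent.TH533.UniV

set_option autoImplicit false

namespace Pool.Agent.TH533.Uni

open Complex

lemma abs_sin_nat_mul (m : ℕ) (t : ℝ) : |Real.sin (m * t)| ≤ m * |Real.sin t| := by
  induction m with
  | zero => simp
  | succ m ih =>
    have h1 : ((m + 1 : ℕ) : ℝ) * t = m * t + t := by push_cast; ring
    rw [h1, Real.sin_add]
    have h2 : |Real.sin (m * t) * Real.cos t| ≤ |Real.sin (m * t)| := by
      rw [abs_mul]
      exact mul_le_of_le_one_right (abs_nonneg _) (Real.abs_cos_le_one t)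
    have h3 : |Real.cos (m * t) * Real.sin t| ≤ |Real.sin t| := by
      rw [abs_mul]
      exact mul_le_of_le_one_left (abs_nonneg _) (Real.abs_cos_le_one _)
    have h4 := abs_add_le (Real.sin (m * t) * Real.cos t) (Real.cos (m * t) * Real.sin t)
    push_cast
    linarith

/-- the basic inequality behind `u' ≥ 0` (all quantities abstract) -/
lemma Q_nonneg_neg {M A B s y SM CM P : ℝ} (hM : 0 < M) (hB : 0 < B) (hA : B ≤ A) (hs : 0 < s) (hy : 0 < y)
    (hCM : -1 ≤ CM) (hSM : SM ≤ 0) (hP : P < 0) :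
    0 ≤ M * A / (2 * B) + M / 2 * CM - SM / (4 * s * y) + 4 * s * y * SM / P := by
  have h1 : 0 ≤ M * A / (2 * B) - M / 2 := by
    have : M * A / (2 * B) - M / 2 = M * (A - B) / (2 * B) := by field_simp
    rw [this]
    have : 0 ≤ A - B := by linarith
    positivity
  have h2 : -(M / 2) ≤ M / 2 * CM := by nlinarith
  have h3 : SM / (4 * s * y) ≤ 0 := div_nonpos_of_nonpos_of_nonneg hSM (by positivity)
  have h4 : 0 ≤ 4 * s * y * SM / P :=
    div_nonneg_of_nonpos (mul_nonpos_of_nonneg_of_nonpos (by positivity) hSM) hP.le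
  linarith

lemma Q_nonneg_pos {M A B s y SM CM P : ℝ} (hM : 0 < M) (hB : 0 < B) (hA : B < A) (hs : 0 < s) (hy : 0 < y)
    (hCM : -1 ≤ CM) (hSM : 0 ≤ SM) (hSM1 : SM ≤ 1) (hSM2 : SM ≤ M * (2 * s * y))
    (hP : P = -4 * (A - B)) (key : 2 * B * (s * y) ≤ M * (A - 2 * B) * (A - B)) :
    0 ≤ M * A / (2 * B) + M / 2 * CM - SM / (4 * s * y) + 4 * s * y * SM / P := by
  have h0 : 0 < A - B := by linarith
  have h2 : -(M / 2) ≤ M / 2 * CM := by nlinarith
  have h3 : SM / (4 * s * y) ≤ M / 2 := by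
    rw [div_le_iff₀ (by positivity)]
    nlinarith
  have h4 : -(s * y / (A - B)) ≤ 4 * s * y * SM / P := by
    rw [hP]
    have : 4 * s * y * SM / (-4 * (A - B)) = -(s * y * SM / (A - B)) := by
      field_simp
    rw [this]
    apply neg_le_neg
    apply div_le_div_of_nonneg_right _ h0.le
    have : 0 < s * y := by positivity
    nlinarith
  have h5 : s * y / (A - B) ≤ M * A / (2 * B) - M := by
    rw [div_le_iff₀ h0]
    have : (M * A / (2 * B) - M) * (A - B) = M * (A - 2 * B) * (A - B) / (2 * B) := by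
      field_simp
    rw [this, le_div_iff₀ (by positivity)]
    linarith
  linarith

/-- the numerical inequality, `M ≥ 6` -/
lemma key_large {M b s y : ℝ} (hb : 0 < b) (hs : 0 < s) (hy1 : y ≤ 1) (hMb : 2 ≤ M * b)
    (h : 3 * b ^ 2 ≤ s ^ 2) :
    2 * b ^ 2 * (s * y) ≤ M * (s ^ 2 - 2 * b ^ 2) * (s ^ 2 - b ^ 2) := by
  have hM : 0 < M := by
    by_contra hc
    push Not at hc
    nlinarith
  have h1 : 1.7 * b ≤ s := by
    apply le_of_sq_le_sq _ hs.le
    nlinarith [pow_pos hb 2]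
  have h2 : s * b ≤ s ^ 2 - b ^ 2 := by nlinarith
  have h3 : b ^ 2 ≤ s ^ 2 - 2 * b ^ 2 := by linarith
  calc 2 * b ^ 2 * (s * y) ≤ 2 * b ^ 2 * (s * 1) := by gcongr
    _ ≤ (M * b) * b ^ 2 * (s * 1) := by gcongr
    _ = M * b ^ 2 * (s * b) := by ring
    _ ≤ M * (s ^ 2 - 2 * b ^ 2) * (s ^ 2 - b ^ 2) := by
        have h4 : 0 ≤ s ^ 2 - 2 * b ^ 2 := by linarith [pow_pos hb 2]
        have h5 : M * b ^ 2 ≤ M * (s ^ 2 - 2 * b ^ 2) := mul_le_mul_of_nonneg_left h3 hM.le
        exact mul_le_mul h5 h2 (by positivity) (mul_nonneg hM.le h4)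

lemma half_cos (t : ℝ) : Real.cos t = 1 - 2 * Real.sin (t / 2) ^ 2 := by
  have h1 : Real.cos t = Real.cos (2 * (t / 2)) := by ring_nf
  rw [h1, Real.cos_two_mul]
  have := Real.sin_sq_add_cos_sq (t / 2)
  linarith

lemma half_sin (t : ℝ) : Real.sin t = 2 * Real.sin (t / 2) * Real.cos (t / 2) := by
  have h1 : Real.sin t = Real.sin (2 * (t / 2)) := by ring_nf
  rw [h1, Real.sin_two_mul]

/-- the key inequality for `t > 4θ` -/
lemma key_ineq (n : ℕ) (hn : 1 ≤ n) {t : ℝ} (h0 : 4 * th n < t) (h1 : t < Real.pi) :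
    2 * Real.sin (th n) ^ 2 * (Real.sin (t / 2) * Real.cos (t / 2)) ≤
      ((n : ℝ) + 3) * (Real.sin (t / 2) ^ 2 - 2 * Real.sin (th n) ^ 2) *
        (Real.sin (t / 2) ^ 2 - Real.sin (th n) ^ 2) := by
  have hth := th_pos n
  have hmul := th_mul n
  have hpi := Real.pi_pos
  have hb := sin_th_pos n
  have hs : 0 < Real.sin (t / 2) := Real.sin_pos_of_pos_of_lt_pi (by linarith) (by linarith)
  have hy : 0 < Real.cos (t / 2) := Real.cos_pos_of_mem_Ioo ⟨by linarith, by linarith⟩
  have hA : 4 * Real.sin (th n) ^ 2 * (1 - Real.sin (th n) ^ 2) ≤ Real.sin (t / 2) ^ 2 := by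
    have e1 : Real.sin (2 * th n) ≤ Real.sin (t / 2) := by
      apply Real.sin_le_sin_of_le_of_le_pi_div_two <;> linarith
    have e2 : 0 ≤ Real.sin (2 * th n) := Real.sin_nonneg_of_nonneg_of_le_pi (by linarith) (by linarith)
    have e3 : Real.sin (2 * th n) ^ 2 = 4 * Real.sin (th n) ^ 2 * (1 - Real.sin (th n) ^ 2) := by
      rw [Real.sin_two_mul]
      have := Real.sin_sq_add_cos_sq (th n)
      have e4 : Real.cos (th n) ^ 2 = 1 - Real.sin (th n) ^ 2 := by linarith
      rw [← e4]; ring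
    rw [← e3]
    exact pow_le_pow_left₀ e2 e1 2
  rcases Nat.lt_or_ge n 3 with hn3 | hn3
  · interval_cases n
    · -- n = 1 : impossible
      exfalso
      push_cast at hmul
      linarith
    · -- n = 2
      have hth5 : th 2 = Real.pi / 5 := by
        unfold th; push_cast; norm_num
      have hB : Real.sin (th 2) ^ 2 = (5 - Real.sqrt 5) / 8 := by
        have e1 := Real.sin_sq_add_cos_sq (th 2)
        rw [hth5] at e1 ⊢
        rw [Real.cos_pi_div_five] at e1
        have e2 : Real.sqrt 5 ^ 2 = 5 := Real.sq_sqrt (by norm_num)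
        nlinarith
      have e2 : Real.sqrt 5 ^ 2 = 5 := Real.sq_sqrt (by norm_num)
      have e3 : 2.236 < Real.sqrt 5 := by
        apply Real.lt_sqrt_of_sq_lt; norm_num
      have e4 : Real.sqrt 5 < 2.237 := by
        rw [Real.sqrt_lt' (by norm_num)]; norm_num
      rw [hB] at hA ⊢
      set r := Real.sqrt 5
      have e5 : 2 * (Real.sin (t / 2) * Real.cos (t / 2)) ≤ 1 := by
        have := Real.sin_sq_add_cos_sq (t / 2)
        nlinarith [sq_nonneg (Real.sin (t / 2) - Real.cos (t / 2))]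
      set A := Real.sin (t / 2) ^ 2
      have f1 : (5 - r) / 8 * ((r - 1) / 2) ≤ A - 2 * ((5 - r) / 8) := by nlinarith
      have f2 : (5 - r) / 8 * ((r + 1) / 2) ≤ A - (5 - r) / 8 := by nlinarith
      have f3 : 0 < (5 - r) / 8 := by linarith
      have f4 : 0 ≤ (5 - r) / 8 * ((r - 1) / 2) := by
        apply mul_nonneg f3.le; linarith
      have f5 : 0 ≤ (5 - r) / 8 * ((r + 1) / 2) := by
        apply mul_nonneg f3.le; linarith
      have f6 : ((5 - r) / 8 * ((r - 1) / 2)) * ((5 - r) / 8 * ((r + 1) / 2)) ≤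
          (A - 2 * ((5 - r) / 8)) * (A - (5 - r) / 8) := mul_le_mul f1 f2 f5 (f4.trans f1)
      have f7 : ((5 - r) / 8 * ((r - 1) / 2)) * ((5 - r) / 8 * ((r + 1) / 2)) = ((5 - r) / 8) ^ 2 := by
        have : ((5 - r) / 8 * ((r - 1) / 2)) * ((5 - r) / 8 * ((r + 1) / 2)) =
          ((5 - r) / 8) ^ 2 * ((r ^ 2 - 1) / 4) := by ring
        rw [this, e2]; norm_num
      rw [f7] at f6
      have f8 : 2 * ((5 - r) / 8) * (Real.sin (t / 2) * Real.cos (t / 2)) ≤ (5 - r) / 8 := by
        nlinarith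
      have f9 : (5 - r) / 8 ≤ 5 * ((5 - r) / 8) ^ 2 := by nlinarith
      push_cast
      linarith
  · have hn3' : (3 : ℝ) ≤ n := by exact_mod_cast hn3
    apply key_large hb hs (Real.cos_le_one _)
    · have e1 := Real.mul_le_sin hth.le (by nlinarith : th n ≤ Real.pi / 2)
      have e2 : ((n : ℝ) + 3) * (2 / Real.pi * th n) = 2 := by
        have : ((n : ℝ) + 3) * (2 / Real.pi * th n) = 2 / Real.pi * (((n : ℝ) + 3) * th n) := by ring
        rw [this, hmul]; field_simp
      have e3 : ((n : ℝ) + 3) * (2 / Real.pi * th n) ≤ ((n : ℝ) + 3) * Real.sin (th n) := by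
        gcongr
      linarith
    · have e1 : Real.sin (th n) ≤ 1 / 2 := by
        rw [← Real.sin_pi_div_six]
        apply Real.sin_le_sin_of_le_of_le_pi_div_two
        · linarith
        · linarith
        · nlinarith
      have e2 : Real.sin (th n) ^ 2 ≤ 1 / 4 := by nlinarith
      have e3 : 3 * Real.sin (th n) ^ 2 ≤ 4 * Real.sin (th n) ^ 2 * (1 - Real.sin (th n) ^ 2) := by
        nlinarith [pow_pos hb 2]
      linarith

theorem u_mono (n : ℕ) (hn : 1 ≤ n) {t : ℝ} (h0 : 3 * th n ≤ t) (h1 : t < Real.pi) :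
    (bz t * deriv (Fm n) (bz t)).im ≤ 0 := by
  have hth := th_pos n
  have hmul := th_mul n
  have hpi := Real.pi_pos
  have hb := sin_th_pos n
  have hM : (0 : ℝ) < (n : ℝ) + 3 := by positivity
  have hs : 0 < Real.sin (t / 2) := Real.sin_pos_of_pos_of_lt_pi (by linarith) (by linarith)
  have hy : 0 < Real.cos (t / 2) := Real.cos_pos_of_mem_Ioo ⟨by linarith, by linarith⟩
  have hPneg : ∀ s : ℝ, 2 * th n < s → s < Real.pi → PP n s < 0 := by
    intro s hs1 hs2
    have e1 : Real.sin (th n) < Real.sin (s / 2) := by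
      apply Real.sin_lt_sin_of_lt_of_le_pi_div_two <;> linarith
    unfold PP
    nlinarith
  have hP := hPneg t (by linarith) h1
  -- closed form of the real part near t
  have hform : ∀ s ∈ Set.Ioo (2 * th n) Real.pi, (Fm n (bz s)).re =
      1 / PP n s + 4 * Real.sin (th n) ^ 2 / ((n : ℝ) + 3) *
        (Real.cos (s / 2) / Real.sin (s / 2)) * Real.sin (((n : ℝ) + 3) * s) / PP n s ^ 2 := by
    intro s hs'
    have e1 := bdry_re n (t := s) (by linarith [hs'.1]) (by linarith [hs'.2])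
    have e2 : PP n s ≠ 0 := (hPneg s hs'.1 hs'.2).ne
    have e3 : Real.sin (s / 2) ≠ 0 :=
      (Real.sin_pos_of_pos_of_lt_pi (by linarith [hs'.1]) (by linarith [hs'.2])).ne'
    have e4 : ((n : ℝ) + 3) * PP n s ^ 2 * Real.sin (s / 2) ≠ 0 :=
      mul_ne_zero (mul_ne_zero hM.ne' (pow_ne_zero 2 e2)) e3
    apply mul_left_cancel₀ e4
    rw [e1]
    generalize PP n s = P at *
    generalize Real.sin (s / 2) = S at *
    generalize Real.sin (((n : ℝ) + 3) * s) = T at *
    field_simp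
  -- derivative of the closed form
  have d1 : HasDerivAt (fun t : ℝ => t / 2) (1 / 2) t := by
    simpa using (hasDerivAt_id t).div_const 2
  have dsin : HasDerivAt (fun t : ℝ => Real.sin (t / 2)) (Real.cos (t / 2) * (1 / 2)) t :=
    by
      have e := (Real.hasDerivAt_sin (t / 2)).comp t d1
      exact e
  have dcos : HasDerivAt (fun t : ℝ => Real.cos (t / 2)) (-Real.sin (t / 2) * (1 / 2)) t :=
    by
      have e := (Real.hasDerivAt_cos (t / 2)).comp t d1
      exact e
  have dP : HasDerivAt (PP n) (-(4 * Real.sin (t / 2) * Real.cos (t / 2))) t := by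
    have e1 := ((dsin.fun_pow 2).const_sub (Real.sin (th n) ^ 2)).const_mul 4
    have e2 : -(4 * Real.sin (t / 2) * Real.cos (t / 2)) =
      4 * -(((2 : ℕ) : ℝ) * Real.sin (t / 2) ^ (2 - 1) * (Real.cos (t / 2) * (1 / 2))) := by
      push_cast; ring
    rw [e2]
    exact e1
  have dSM : HasDerivAt (fun t : ℝ => Real.sin (((n : ℝ) + 3) * t))
      (Real.cos (((n : ℝ) + 3) * t) * ((n : ℝ) + 3)) t := by
    have e1 : HasDerivAt (fun t : ℝ => ((n : ℝ) + 3) * t) ((n : ℝ) + 3) t := by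
      simpa using (hasDerivAt_id t).const_mul ((n : ℝ) + 3)
    exact (Real.hasDerivAt_sin _).comp t e1
  have dU := (dP.fun_inv hP.ne).add (((((dcos.div dsin hs.ne').const_mul
    (4 * Real.sin (th n) ^ 2 / ((n : ℝ) + 3))).mul dSM).div (dP.fun_pow 2) (pow_ne_zero 2 hP.ne)))
  have hre := hasDerivAt_re (Fm n) (differentiable_Fm n) t
  have hre2 := dU.congr_of_eventuallyEq (f₁ := fun t : ℝ => (Fm n (bz t)).re) (by
    filter_upwards [isOpen_Ioo.mem_nhds (⟨by linarith, h1⟩ : t ∈ Set.Ioo (2 * th n) Real.pi)] with s hs'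
    rw [hform s hs']
    simp only [Pi.add_apply, Pi.mul_apply, Pi.div_apply, one_div])
  have hval := hre.unique hre2
  have hQ : 0 ≤ ((n : ℝ) + 3) * Real.sin (t / 2) ^ 2 / (2 * Real.sin (th n) ^ 2) +
      ((n : ℝ) + 3) / 2 * Real.cos (((n : ℝ) + 3) * t) -
      Real.sin (((n : ℝ) + 3) * t) / (4 * Real.sin (t / 2) * Real.cos (t / 2)) +
      4 * Real.sin (t / 2) * Real.cos (t / 2) * Real.sin (((n : ℝ) + 3) * t) / PP n t := by
    have hPP : PP n t = -4 * (Real.sin (t / 2) ^ 2 - Real.sin (th n) ^ 2) := by unfold PP; ring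
    have hAB : Real.sin (th n) ^ 2 < Real.sin (t / 2) ^ 2 := by
      rw [hPP] at hP; linarith
    rcases le_or_gt (Real.sin (((n : ℝ) + 3) * t)) 0 with hc | hc
    · exact Q_nonneg_neg hM (pow_pos hb 2) hAB.le hs hy (Real.neg_one_le_cos _) hc hP
    · have h4t : 4 * th n < t := by
        by_contra hcon
        push Not at hcon
        have e1 : Real.sin (((n : ℝ) + 3) * t - 2 * Real.pi - 2 * Real.pi) ≤ 0 := by
          apply Real.sin_nonpos_of_nonpos_of_neg_pi_le
          · nlinarith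
          · nlinarith
        rw [Real.sin_sub_two_pi, Real.sin_sub_two_pi] at e1
        linarith
      refine Q_nonneg_pos hM (pow_pos hb 2) hAB hs hy (Real.neg_one_le_cos _) hc.le
        (Real.sin_le_one _) ?_ hPP (key_ineq n hn h4t h1)
      have e1 := abs_sin_nat_mul (n + 3) t
      have e2 : ((n + 3 : ℕ) : ℝ) = (n : ℝ) + 3 := by push_cast; ring
      rw [e2, abs_of_pos hc, abs_of_pos (Real.sin_pos_of_pos_of_lt_pi (by linarith) h1), half_sin t] at e1
      exact e1
  have hfin : -(bz t * deriv (Fm n) (bz t)).im = (8 * Real.sin (th n) ^ 2 * Real.cos (t / 2) /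
      (((n : ℝ) + 3) * Real.sin (t / 2) * PP n t ^ 2)) *
      (((n : ℝ) + 3) * Real.sin (t / 2) ^ 2 / (2 * Real.sin (th n) ^ 2) +
      ((n : ℝ) + 3) / 2 * Real.cos (((n : ℝ) + 3) * t) -
      Real.sin (((n : ℝ) + 3) * t) / (4 * Real.sin (t / 2) * Real.cos (t / 2)) +
      4 * Real.sin (t / 2) * Real.cos (t / 2) * Real.sin (((n : ℝ) + 3) * t) / PP n t) := by
    rw [hval]
    simp only [Pi.div_apply, Pi.mul_apply, Nat.cast_ofNat, Nat.add_one_sub_one, pow_one]
    have hsc := Real.sin_sq_add_cos_sq (t / 2)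
    have hPne := hP.ne
    have hMne := hM.ne'
    have hsne := hs.ne'
    have hyne := hy.ne'
    have hbne := hb.ne'
    generalize PP n t = P at *
    generalize Real.sin (t / 2) = S at *
    generalize Real.cos (t / 2) = Y at *
    generalize Real.sin (((n : ℝ) + 3) * t) = SM at *
    generalize Real.cos (((n : ℝ) + 3) * t) = CM at *
    generalize Real.sin (th n) = b at *
    generalize (n : ℝ) + 3 = M at *
    have hY : -S * (1 / 2) * S - Y * (Y * (1 / 2)) = -(1 / 2) := by linear_combination (-(1 / 2 : ℝ)) * hsc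
    rw [hY]
    field_simp
    ring
  have : 0 ≤ -(bz t * deriv (Fm n) (bz t)).im := by
    rw [hfin]
    apply mul_nonneg _ hQ
    positivity
  linarith

end Pool.Agent.TH533.Uni
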