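import Pool.Agent.TH533.UniDisc
import Pool.Agent.TH533.UniMono
import Pool.Agent.TH533.UniU

set_option autoImplicit false

namespace Pool.Agent.TH533.Uni

open Complex

lemma Fm_conj (n : ℕ) (z : ℂ) : Fm n ((starRingEnd ℂ) z) = (starRingEnd ℂ) (Fm n z) := by
  unfold Fm
  rw [map_sum]
  apply Finset.sum_congr rfl
  intro j _
  rw [map_mul, map_pow, Complex.conj_ofReal]

lemma Fm_deriv_zero (n : ℕ) : deriv (Fm n) 0 = 1 := by
  have h : HasDerivAt (Fm n) (∑ j ∈ Finset.Icc 1 (n + 1), (co n j : ℂ) * ((j : ℂ) * (0 : ℂ) ^ (j - 1))) 0 := by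
    unfold Fm
    apply HasDerivAt.fun_sum
    intro j _
    exact (hasDerivAt_pow j (0 : ℂ)).const_mul _
  rw [h.deriv]
  rw [Finset.sum_eq_single 1]
  · rw [co_one]; simp
  · intro j hj hj1
    have h1 := (Finset.mem_Icc.1 hj).1
    have h2 : j - 1 ≠ 0 := by omega
    rw [zero_pow h2]; simp
  · intro h
    exact absurd (Finset.mem_Icc.2 ⟨le_rfl, by omega⟩) h

theorem Fm_injOn (n : ℕ) (hn : 1 ≤ n) : Set.InjOn (Fm n) (Metric.ball (0 : ℂ) 1) := by
  obtain ⟨t1, h1, h2, h3, h4⟩ := v_unimodal n hn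
  have hth := th_pos n
  have h4th := four_th_le n hn
  set t2 := (max t1 (3 * th n) + 4 * th n) / 2 with ht2
  have hmax : max t1 (3 * th n) < 4 * th n := max_lt h2 (by linarith)
  have hm1 : t1 ≤ max t1 (3 * th n) := le_max_left _ _
  have hm2 : 3 * th n ≤ max t1 (3 * th n) := le_max_right _ _
  refine criterion (Fm n) (differentiable_Fm n) (Fm_conj n) t1 t2 h1 (by linarith) (by linarith)
    ?_ ?_ ?_ ?_ ?_
  · rw [Fm_deriv_zero]; simp
  · intro t ht0 ht1
    have h5 := v_prod n ht0 ht1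
    show 0 ≤ (Fm n (bz t)).im
    rw [h5]
    have h6 := KK_pos n
    have h7 := Pr_nonneg n t
    have h8 := Real.sin_nonneg_of_nonneg_of_le_pi ht0 ht1
    positivity
  · intro t ht0 ht1
    exact h3 t ht0 ht1
  · intro t ht0 ht1
    exact h4 t ht0 (by linarith)
  · intro t ht0 ht1
    exact u_mono n hn (by linarith) ht1

lemma U_deriv (m : ℤ) (x : ℝ) :
    Polynomial.eval (Real.cos x) (Polynomial.derivative (Polynomial.Chebyshev.U ℝ m)) * Real.sin x ^ 3
      = Real.sin (((m : ℝ) + 1) * x) * Real.cos x - ((m : ℝ) + 1) * Real.cos (((m : ℝ) + 1) * x) * Real.sin x := by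
  have h1 : HasDerivAt (fun x : ℝ => Polynomial.eval (Real.cos x) (Polynomial.Chebyshev.U ℝ m) * Real.sin x)
      (Polynomial.eval (Real.cos x) (Polynomial.derivative (Polynomial.Chebyshev.U ℝ m)) * (-Real.sin x) * Real.sin x
        + Polynomial.eval (Real.cos x) (Polynomial.Chebyshev.U ℝ m) * Real.cos x) x := by
    have e1 := (Polynomial.hasDerivAt (Polynomial.Chebyshev.U ℝ m) (Real.cos x)).comp x (Real.hasDerivAt_cos x)
    exact e1.mul (Real.hasDerivAt_sin x)
  have h2 : HasDerivAt (fun x : ℝ => Real.sin (((m : ℝ) + 1) * x))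
      (Real.cos (((m : ℝ) + 1) * x) * ((m : ℝ) + 1)) x := by
    have e1 : HasDerivAt (fun x : ℝ => ((m : ℝ) + 1) * x) ((m : ℝ) + 1) x := by
      simpa using (hasDerivAt_id x).const_mul ((m : ℝ) + 1)
    exact (Real.hasDerivAt_sin _).comp x e1
  have h3 : (fun x : ℝ => Polynomial.eval (Real.cos x) (Polynomial.Chebyshev.U ℝ m) * Real.sin x)
      = fun x : ℝ => Real.sin (((m : ℝ) + 1) * x) := by
    funext y
    exact Polynomial.Chebyshev.U_real_cos y m
  rw [h3] at h1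
  have h4 := h1.unique h2
  have h5 := Polynomial.Chebyshev.U_real_cos x m
  linear_combination (-Real.sin x) * h4 + Real.cos x * h5

lemma coeff_eq (n j : ℕ) :
    (Polynomial.eval (Real.cos (Real.pi / (((n + 1 : ℕ) : ℝ) + 2)))
        (Polynomial.derivative (Polynomial.Chebyshev.U ℝ (((n + 1 : ℕ) : ℤ) - (j : ℤ) + 1))) *
      Polynomial.eval (Real.cos (Real.pi / (((n + 1 : ℕ) : ℝ) + 2)))
        (Polynomial.Chebyshev.U ℝ ((j : ℤ) - 1)) /
      Polynomial.eval (Real.cos (Real.pi / (((n + 1 : ℕ) : ℝ) + 2)))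
        (Polynomial.derivative (Polynomial.Chebyshev.U ℝ (((n + 1 : ℕ) : ℤ))))) = co n j := by
  have hth : Real.pi / (((n + 1 : ℕ) : ℝ) + 2) = th n := by
    unfold th; push_cast; congr 1; ring
  rw [hth]
  have hmul := th_mul n
  have hs := (sin_th_pos n).ne'
  have hc := (cos_th_pos n).ne'
  have hM : ((n : ℝ) + 3) ≠ 0 := by positivity
  have a1 := U_deriv (((n + 1 : ℕ) : ℤ) - (j : ℤ) + 1) (th n)
  have a2 := U_deriv (((n + 1 : ℕ) : ℤ)) (th n)
  have a3 := Polynomial.Chebyshev.U_real_cos (th n) ((j : ℤ) - 1)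
  have b1 : ((((((n + 1 : ℕ) : ℤ) - (j : ℤ) + 1) : ℤ) : ℝ) + 1) = (n : ℝ) + 3 - j := by push_cast; ring
  have b2 : ((((((n + 1 : ℕ) : ℤ)) : ℤ) : ℝ) + 1) = (n : ℝ) + 2 := by push_cast; ring
  have b3 : ((((j : ℤ) - 1 : ℤ) : ℝ) + 1) = (j : ℝ) := by push_cast; ring
  rw [b1] at a1
  rw [b2] at a2
  rw [b3] at a3
  have c1 : ((n : ℝ) + 3 - j) * th n = Real.pi - j * th n := by linarith
  have c2 : ((n : ℝ) + 2) * th n = Real.pi - th n := by linarith
  rw [c1, Real.sin_pi_sub, Real.cos_pi_sub] at a1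
  rw [c2, Real.sin_pi_sub, Real.cos_pi_sub] at a2
  unfold co
  generalize Polynomial.eval (Real.cos (th n))
        (Polynomial.derivative (Polynomial.Chebyshev.U ℝ (((n + 1 : ℕ) : ℤ) - (j : ℤ) + 1))) = X1 at *
  generalize Polynomial.eval (Real.cos (th n))
        (Polynomial.derivative (Polynomial.Chebyshev.U ℝ (((n + 1 : ℕ) : ℤ)))) = X2 at *
  generalize Polynomial.eval (Real.cos (th n)) (Polynomial.Chebyshev.U ℝ ((j : ℤ) - 1)) = X3 at *
  generalize Real.sin (j * th n) = sj at *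
  generalize Real.cos (j * th n) = cj at *
  generalize Real.sin (th n) = b at *
  generalize Real.cos (th n) = c at *
  have hX2 : X2 * b ^ 3 ≠ 0 := by
    rw [a2]
    have : b * c - ((n : ℝ) + 2) * -c * b = ((n : ℝ) + 3) * b * c := by ring
    rw [this]
    exact mul_ne_zero (mul_ne_zero hM hs) hc
  have hX2' : X2 ≠ 0 := left_ne_zero_of_mul hX2
  rw [div_eq_div_iff hX2' (mul_ne_zero (mul_ne_zero hM (pow_ne_zero 2 hs)) hc)]
  have hb3 : b ^ 4 ≠ 0 := pow_ne_zero 4 hs
  apply mul_right_cancel₀ hb3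
  have e1 : X1 * X3 * (((n : ℝ) + 3) * b ^ 2 * c) * b ^ 4 = (X1 * b ^ 3) * (X3 * b) * (((n : ℝ) + 3) * b ^ 2 * c) := by
    ring
  have e2 : sj * (((n : ℝ) + 3 - j) * b * cj + c * sj) * X2 * b ^ 4 =
    sj * (((n : ℝ) + 3 - j) * b * cj + c * sj) * b * (X2 * b ^ 3) := by ring
  rw [e1, e2, a1, a2, a3]
  ring

theorem main : ∀ N : ℕ, 1 ≤ N →
      Set.InjOn
        (fun z : ℂ =>
          ∑ j ∈ Finset.Icc 1 N,
            (((Polynomial.eval (Real.cos (Real.pi / ((N : ℝ) + 2)))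
                  (Polynomial.derivative
                    (Polynomial.Chebyshev.U ℝ ((N : ℤ) - (j : ℤ) + 1))) *
                Polynomial.eval (Real.cos (Real.pi / ((N : ℝ) + 2)))
                  (Polynomial.Chebyshev.U ℝ ((j : ℤ) - 1)) /
                Polynomial.eval (Real.cos (Real.pi / ((N : ℝ) + 2)))
                  (Polynomial.derivative (Polynomial.Chebyshev.U ℝ (N : ℤ)))) : ℝ) : ℂ) *
              z ^ j)
        (Metric.ball (0 : ℂ) 1) := by
  intro N hN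
  obtain ⟨n, rfl⟩ : ∃ n, N = n + 1 := ⟨N - 1, by omega⟩
  have h1 : (fun z : ℂ =>
          ∑ j ∈ Finset.Icc 1 (n + 1),
            (((Polynomial.eval (Real.cos (Real.pi / (((n + 1 : ℕ) : ℝ) + 2)))
                  (Polynomial.derivative
                    (Polynomial.Chebyshev.U ℝ (((n + 1 : ℕ) : ℤ) - (j : ℤ) + 1))) *
                Polynomial.eval (Real.cos (Real.pi / (((n + 1 : ℕ) : ℝ) + 2)))
                  (Polynomial.Chebyshev.U ℝ ((j : ℤ) - 1)) /
                Polynomial.eval (Real.cos (Real.pi / (((n + 1 : ℕ) : ℝ) + 2)))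
                  (Polynomial.derivative (Polynomial.Chebyshev.U ℝ ((n + 1 : ℕ) : ℤ)))) : ℝ) : ℂ) *
              z ^ j) = Fm n := by
    funext z
    unfold Fm
    apply Finset.sum_congr rfl
    intro j hj
    rw [coeff_eq n j]
  rw [h1]
  rcases Nat.eq_zero_or_pos n with h0 | h0
  · subst h0
    intro z _ w _ hzw
    unfold Fm at hzw
    simp [co_one] at hzw
    exact hzw
  · exact Fm_injOn n h0

end Pool.Agent.TH533.Uni
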