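import Mathlib

set_option autoImplicit false

namespace Pool.Agent.TH533.Uni

open Complex Set Filter Asymptotics Bornology

/-- the open first quadrant -/
lemma isOpen_Q1 : IsOpen (Ioi (0 : ℝ) ×ℂ Ioi (0 : ℝ)) :=
  isOpen_Ioi.reProdIm isOpen_Ioi

lemma convex_Q1 : Convex ℝ (Ioi (0 : ℝ) ×ℂ Ioi (0 : ℝ)) := by
  intro x hx y hy a b ha hb hab
  have hx1 : 0 < x.re := hx.1
  have hx2 : 0 < x.im := hx.2
  have hy1 : 0 < y.re := hy.1
  have hy2 : 0 < y.im := hy.2
  have hab' : 0 < a ∨ 0 < b := by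
    by_contra h
    push Not at h
    linarith [h.1, h.2]
  constructor
  · show 0 < (a • x + b • y).re
    simp only [Complex.add_re, Complex.real_smul, Complex.re_ofReal_mul]
    rcases hab' with h | h
    · have := mul_pos h hx1
      have := mul_nonneg hb hy1.le
      linarith
    · have := mul_nonneg ha hx1.le
      have := mul_pos h hy1
      linarith
  · show 0 < (a • x + b • y).im
    simp only [Complex.add_im, Complex.real_smul, Complex.im_ofReal_mul]
    rcases hab' with h | h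
    · have := mul_pos h hx2
      have := mul_nonneg hb hy2.le
      linarith
    · have := mul_nonneg ha hx2.le
      have := mul_pos h hy2
      linarith

theorem re_nonneg_of_quadrant (G : ℂ → ℂ) (hG : DiffContOnCl ℂ G (Ioi 0 ×ℂ Ioi 0))
    (a b : ℝ) (hgrow : ∀ k : ℂ, 0 < k.re → 0 < k.im → ‖G k‖ ≤ a * ‖k‖ + b)
    (hre : ∀ x : ℝ, 0 ≤ x → 0 ≤ (G x).re) (him : ∀ x : ℝ, 0 ≤ x → 0 ≤ (G (x * I)).re)
    {k : ℂ} (hk : 0 ≤ k.re) (hk' : 0 ≤ k.im) : 0 ≤ (G k).re := by
  have h1 : ‖Complex.exp (-G k)‖ ≤ 1 := by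
    refine PhragmenLindelof.quadrant_I (f := fun z => Complex.exp (-G z)) ?_ ?_ ?_ ?_ hk hk'
    · have : DiffContOnCl ℂ (fun z => -G z) (Ioi 0 ×ℂ Ioi 0) := hG.neg
      exact Complex.differentiable_exp.comp_diffContOnCl this
    · refine ⟨1, by norm_num, a, ?_⟩
      refine IsBigO.of_bound (Real.exp b) ?_
      rw [Filter.eventually_inf_principal]
      refine Filter.Eventually.of_forall (fun z hz => ?_)
      have hz1 : 0 < z.re := hz.1
      have hz2 : 0 < z.im := hz.2
      rw [Complex.norm_exp, Real.rpow_one, Real.norm_eq_abs, Real.abs_exp, ← Real.exp_add]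
      apply Real.exp_le_exp.2
      have h2 := hgrow z hz1 hz2
      have h3 : (-G z).re ≤ ‖G z‖ := by
        rw [← norm_neg]; exact Complex.re_le_norm _
      linarith
    · intro x hx
      rw [Complex.norm_exp]
      have := hre x hx
      rw [Complex.neg_re]
      exact Real.exp_le_one_iff.2 (by linarith)
    · intro x hx
      rw [Complex.norm_exp]
      have := him x hx
      rw [Complex.neg_re]
      exact Real.exp_le_one_iff.2 (by linarith)
  rw [Complex.norm_exp, Real.exp_le_one_iff, Complex.neg_re] at h1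
  linarith

theorem re_pos_of_quadrant (G : ℂ → ℂ) (hG : DiffContOnCl ℂ G (Ioi 0 ×ℂ Ioi 0))
    (a b : ℝ) (hgrow : ∀ k : ℂ, 0 < k.re → 0 < k.im → ‖G k‖ ≤ a * ‖k‖ + b)
    (hre : ∀ x : ℝ, 0 ≤ x → 0 ≤ (G x).re) (him : ∀ x : ℝ, 0 ≤ x → 0 ≤ (G (x * I)).re)
    (h1 : 0 < (G 1).re)
    {k : ℂ} (hk : 0 < k.re) (hk' : 0 < k.im) : 0 < (G k).re := by
  have h0 := re_nonneg_of_quadrant G hG a b hgrow hre him hk.le hk'.le
  rcases h0.lt_or_eq with h | h
  · exact h
  exfalso
  have hd : DifferentiableOn ℂ (fun z => Complex.exp (-G z)) (Ioi 0 ×ℂ Ioi 0) := by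
    have : DifferentiableOn ℂ (fun z => -G z) (Ioi 0 ×ℂ Ioi 0) := hG.differentiableOn.neg
    exact this.cexp
  have hkm : k ∈ (Ioi (0 : ℝ) ×ℂ Ioi (0 : ℝ)) := ⟨hk, hk'⟩
  have hmax : IsMaxOn (norm ∘ fun z => Complex.exp (-G z)) (Ioi 0 ×ℂ Ioi 0) k := by
    intro z hz
    simp only [Function.comp_apply, Set.mem_ofPred_eq]
    rw [Complex.norm_exp, Complex.norm_exp]
    apply Real.exp_le_exp.2
    rw [Complex.neg_re, Complex.neg_re, ← h]
    have := re_nonneg_of_quadrant G hG a b hgrow hre him (k := z) hz.1.le hz.2.le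
    linarith
  have hconst := Complex.norm_eqOn_of_isPreconnected_of_isMaxOn convex_Q1.isPreconnected isOpen_Q1
    hd hkm hmax
  -- by continuity the norm is 1 on the closure
  have hcont : ContinuousOn (fun z => (G z).re) (closure (Ioi (0 : ℝ) ×ℂ Ioi (0 : ℝ))) :=
    Complex.continuous_re.comp_continuousOn hG.continuousOn
  have hzero : ∀ z ∈ (Ioi (0 : ℝ) ×ℂ Ioi (0 : ℝ)), (G z).re = 0 := by
    intro z hz
    have h2 := hconst hz
    simp only [Function.comp_apply, Function.const_apply] at h2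
    rw [Complex.norm_exp, Complex.norm_exp] at h2
    have h3 := Real.exp_injective h2
    rw [Complex.neg_re, Complex.neg_re, ← h] at h3
    linarith
  have hmem : (1 : ℂ) ∈ closure (Ioi (0 : ℝ) ×ℂ Ioi (0 : ℝ)) := by
    rw [Complex.closure_reProdIm, closure_Ioi]
    constructor <;> simp
  have h4 : (G 1).re = 0 := by
    have := Set.EqOn.of_subset_closure (s := (Ioi (0 : ℝ) ×ℂ Ioi (0 : ℝ)))
      (t := closure (Ioi (0 : ℝ) ×ℂ Ioi (0 : ℝ))) (f := fun z => (G z).re) (g := fun _ => (0 : ℝ))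
      (fun z hz => hzero z hz) hcont continuousOn_const subset_closure (le_refl _)
    exact this hmem
  linarith

end Pool.Agent.TH533.Uni
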