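import Mathlib

set_option autoImplicit false

namespace Pool.Agent.TH533.Uni

open Complex

/-- Square root with values in the closed first quadrant, continuous on the whole plane
(it is a square root only for arguments in the closed upper half plane). -/
noncomputable def sq (w : ℂ) : ℂ :=
  (Real.sqrt ((‖w‖ + w.re) / 2) : ℝ) + (Real.sqrt ((‖w‖ - w.re) / 2) : ℝ) * I

lemma sq_re (w : ℂ) : (sq w).re = Real.sqrt ((‖w‖ + w.re) / 2) := by
  simp [sq]

lemma sq_im (w : ℂ) : (sq w).im = Real.sqrt ((‖w‖ - w.re) / 2) := by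
  simp [sq]

lemma continuous_sq : Continuous sq := by
  unfold sq
  fun_prop

lemma abs_re_le' (w : ℂ) : 0 ≤ (‖w‖ + w.re) / 2 ∧ 0 ≤ (‖w‖ - w.re) / 2 := by
  have h := Complex.abs_re_le_norm w
  rw [abs_le] at h
  constructor <;> linarith [h.1, h.2]

lemma sq_mul_self {w : ℂ} (hw : 0 ≤ w.im) : sq w * sq w = w := by
  obtain ⟨h1, h2⟩ := abs_re_le' w
  apply Complex.ext
  · rw [Complex.mul_re, sq_re, sq_im, Real.mul_self_sqrt h1, Real.mul_self_sqrt h2]; ring
  · rw [Complex.mul_im, sq_re, sq_im, mul_comm (Real.sqrt ((‖w‖ - w.re) / 2)), ← two_mul,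
      ← Real.sqrt_mul h1]
    have h3 : (‖w‖ + w.re) / 2 * ((‖w‖ - w.re) / 2) = (w.im / 2) ^ 2 := by
      have h4 : ‖w‖ ^ 2 = w.re ^ 2 + w.im ^ 2 := by
        rw [Complex.sq_norm, Complex.normSq_apply]; ring
      nlinarith [h4]
    rw [h3, Real.sqrt_sq (by linarith)]; ring

lemma sq_pow_two {w : ℂ} (hw : 0 ≤ w.im) : sq w ^ 2 = w := by
  rw [pow_two, sq_mul_self hw]

lemma sq_pos {w : ℂ} (hw : 0 < w.im) : 0 < (sq w).re ∧ 0 < (sq w).im := by
  have h := Complex.abs_re_lt_norm.2 hw.ne'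
  rw [abs_lt] at h
  rw [sq_re, sq_im]
  constructor <;> apply Real.sqrt_pos.2 <;> linarith [h.1, h.2]

lemma norm_sq_pow (w : ℂ) : ‖sq w‖ ^ 2 = ‖w‖ := by
  obtain ⟨h1, h2⟩ := abs_re_le' w
  rw [Complex.sq_norm, Complex.normSq_apply, sq_re, sq_im, Real.mul_self_sqrt h1,
    Real.mul_self_sqrt h2]
  ring

lemma sq_of_nonneg {x : ℝ} (hx : 0 ≤ x) : sq (x : ℂ) = (Real.sqrt x : ℝ) := by
  apply Complex.ext
  · rw [sq_re]; simp [abs_of_nonneg hx]
  · rw [sq_im]; simp [abs_of_nonneg hx]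

lemma sq_of_nonpos {x : ℝ} (hx : x ≤ 0) : sq (x : ℂ) = (Real.sqrt (-x) : ℝ) * I := by
  apply Complex.ext
  · rw [sq_re]; simp [abs_of_nonpos hx]
  · rw [sq_im, Complex.norm_real, Real.norm_eq_abs, abs_of_nonpos hx, Complex.ofReal_re]
    have h : (((Real.sqrt (-x) : ℝ) : ℂ) * I).im = Real.sqrt (-x) := by simp
    rw [h]; congr 1; ring

lemma sq_eq_of_sq {a w : ℂ} (hr : 0 < a.re) (hi : 0 < a.im) (h : a ^ 2 = w) : sq w = a := by
  have hw : 0 < w.im := by
    rw [← h, pow_two, Complex.mul_im]; positivity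
  have h2 : sq w ^ 2 = a ^ 2 := by rw [sq_pow_two hw.le, h]
  rcases sq_eq_sq_iff_eq_or_eq_neg.1 h2 with h3 | h3
  · exact h3
  · exfalso
    have h4 := (sq_pos hw).1
    rw [h3, Complex.neg_re] at h4
    linarith

lemma hasDerivAt_sq {w : ℂ} (hw : 0 < w.im) : HasDerivAt sq (2 * sq w)⁻¹ w := by
  have h1 : HasDerivAt (fun z : ℂ => z ^ 2) (2 * sq w) (sq w) := by
    simpa using hasDerivAt_pow 2 (sq w)
  have h2 : 2 * sq w ≠ 0 := by
    intro h
    have h3 : sq w = 0 := by simpa using h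
    have h4 := (sq_pos hw).1
    rw [h3] at h4
    simp at h4
  have h3 : ∀ᶠ y in nhds w, (fun z : ℂ => z ^ 2) (sq y) = y := by
    have : ∀ᶠ y in nhds w, 0 < y.im := by
      exact (continuous_im.continuousAt).eventually (lt_mem_nhds hw)
    filter_upwards [this] with y hy
    exact sq_pow_two hy.le
  exact HasDerivAt.of_local_left_inverse continuous_sq.continuousAt h1 h2 h3

end Pool.Agent.TH533.Uni
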