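import Mathlib

set_option autoImplicit false

namespace Pool.Agent.TH533.Uni

open Complex

/-- the angle `π/(n+3)` -/
noncomputable def th (n : ℕ) : ℝ := Real.pi / ((n : ℝ) + 3)

/-- the coefficients, `M = n+3` -/
noncomputable def co (n j : ℕ) : ℝ :=
  (Real.sin (j * th n) * (((n : ℝ) + 3 - j) * Real.sin (th n) * Real.cos (j * th n)
    + Real.cos (th n) * Real.sin (j * th n))) /
    (((n : ℝ) + 3) * Real.sin (th n) ^ 2 * Real.cos (th n))

/-- the polynomial -/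
noncomputable def Fm (n : ℕ) (z : ℂ) : ℂ := ∑ j ∈ Finset.Icc 1 (n + 1), (co n j : ℂ) * z ^ j

lemma th_pos (n : ℕ) : 0 < th n := by
  unfold th; positivity

lemma th_mul (n : ℕ) : ((n : ℝ) + 3) * th n = Real.pi := by
  unfold th; field_simp

lemma sin_th_pos (n : ℕ) : 0 < Real.sin (th n) := by
  apply Real.sin_pos_of_pos_of_lt_pi (th_pos n)
  have := th_mul n
  have := th_pos n
  have : (0 : ℝ) ≤ n := Nat.cast_nonneg n
  nlinarith

lemma cos_th_pos (n : ℕ) : 0 < Real.cos (th n) := by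
  apply Real.cos_pos_of_mem_Ioo
  have h1 := th_mul n
  have h2 := th_pos n
  have h3 : (0 : ℝ) ≤ n := Nat.cast_nonneg n
  constructor
  · linarith [Real.pi_pos]
  · nlinarith

lemma co_zero (n : ℕ) : co n 0 = 0 := by
  unfold co; simp

lemma co_last (n : ℕ) : co n (n + 2) = 0 := by
  unfold co
  have h1 : ((n + 2 : ℕ) : ℝ) * th n = Real.pi - th n := by
    have := th_mul n
    push_cast
    linarith
  rw [h1, Real.sin_pi_sub, Real.cos_pi_sub]
  push_cast
  ring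

lemma co_one (n : ℕ) : co n 1 = 1 := by
  unfold co
  have h1 := (sin_th_pos n).ne'
  have h2 := (cos_th_pos n).ne'
  have h3 : (n : ℝ) + 3 ≠ 0 := by positivity
  push_cast
  rw [one_mul]
  field_simp
  ring

lemma Fm_range (n : ℕ) (z : ℂ) : Fm n z = ∑ j ∈ Finset.range (n + 3), (co n j : ℂ) * z ^ j := by
  have h1 : Finset.range (n + 3) = insert 0 (insert (n + 2) (Finset.Icc 1 (n + 1))) := by
    ext j
    simp only [Finset.mem_range, Finset.mem_insert, Finset.mem_Icc]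
    omega
  rw [h1, Finset.sum_insert, Finset.sum_insert, co_zero, co_last]
  · unfold Fm; simp
  · simp
  · simp

lemma g1_sum (x M : ℂ) (m : ℕ) : (1 - x) ^ 2 * ∑ j ∈ Finset.range m, (M - (j : ℂ)) * x ^ j
    = (M - (M + 1) * x) - x ^ m * ((M - (m : ℂ)) * (1 - x) - x) := by
  induction m with
  | zero => simp; ring
  | succ m ih =>
    rw [Finset.sum_range_succ, mul_add, ih]
    push_cast
    ring

/-- `w = exp(2iθ)` -/
noncomputable def ww (n : ℕ) : ℂ := Complex.exp ((2 * th n : ℝ) * I)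
noncomputable def ww' (n : ℕ) : ℂ := Complex.exp (-((2 * th n : ℝ) * I))

lemma ww_mul (n : ℕ) : ww n * ww' n = 1 := by
  unfold ww ww'
  rw [← Complex.exp_add]; simp

lemma ww_pow (n j : ℕ) : ww n ^ j = ((Real.cos (2 * (j * th n)) : ℝ) : ℂ) + ((Real.sin (2 * (j * th n)) : ℝ) : ℂ) * I := by
  unfold ww
  rw [← Complex.exp_nat_mul]
  have : (j : ℂ) * (((2 * th n : ℝ) : ℂ) * I) = ((2 * (j * th n) : ℝ) : ℂ) * I := by
    push_cast; ring
  rw [this, Complex.exp_mul_I, ← Complex.ofReal_cos, ← Complex.ofReal_sin]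

lemma ww'_pow (n j : ℕ) : ww' n ^ j = ((Real.cos (2 * (j * th n)) : ℝ) : ℂ) - ((Real.sin (2 * (j * th n)) : ℝ) : ℂ) * I := by
  unfold ww'
  rw [← Complex.exp_nat_mul]
  have : (j : ℂ) * (-(((2 * th n : ℝ) : ℂ) * I)) = ((-(2 * (j * th n)) : ℝ) : ℂ) * I := by
    push_cast; ring
  rw [this, Complex.exp_mul_I, ← Complex.ofReal_cos, ← Complex.ofReal_sin, Real.cos_neg, Real.sin_neg]
  push_cast; ring

lemma ww_pow_M (n : ℕ) : ww n ^ (n + 3) = 1 := by
  rw [ww_pow]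
  have : 2 * (((n + 3 : ℕ) : ℝ) * th n) = 2 * Real.pi := by
    push_cast; rw [th_mul]
  rw [this]; simp

lemma ww'_pow_M (n : ℕ) : ww' n ^ (n + 3) = 1 := by
  rw [ww'_pow]
  have : 2 * (((n + 3 : ℕ) : ℝ) * th n) = 2 * Real.pi := by
    push_cast; rw [th_mul]
  rw [this]; simp

lemma ww_sub (n : ℕ) : ww n - ww' n = 4 * ((Real.sin (th n) : ℝ) : ℂ) * ((Real.cos (th n) : ℝ) : ℂ) * I := by
  have h1 := ww_pow n 1
  have h2 := ww'_pow n 1
  rw [pow_one] at h1 h2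
  rw [h1, h2]
  simp only [Nat.cast_one, one_mul, Real.sin_two_mul]
  push_cast; ring

lemma ww_sig (n : ℕ) : 2 - ww n - ww' n = 4 * ((Real.sin (th n) : ℝ) : ℂ) ^ 2 := by
  have h1 := ww_pow n 1
  have h2 := ww'_pow n 1
  rw [pow_one] at h1 h2
  rw [h1, h2]
  simp only [Nat.cast_one, one_mul]
  have h3 : Real.cos (2 * th n) = 1 - 2 * Real.sin (th n) ^ 2 := by
    rw [Real.cos_two_mul]
    have := Real.sin_sq_add_cos_sq (th n)
    linarith
  rw [h3]
  push_cast; ring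

lemma co_rel (n j : ℕ) : ((n : ℂ) + 3) * (ww n - ww' n) * (2 - ww n - ww' n) * (co n j : ℂ)
    = (2 - ww n - ww' n) * ((((n : ℂ) + 3) - (j : ℂ)) * (ww n ^ j - ww' n ^ j))
      + (ww n - ww' n) * (2 - ww n ^ j - ww' n ^ j) := by
  rw [ww_sub, ww_sig, ww_pow, ww'_pow]
  have h3 : Real.cos (2 * (j * th n)) = 1 - 2 * Real.sin (j * th n) ^ 2 := by
    rw [Real.cos_two_mul]
    have := Real.sin_sq_add_cos_sq (j * th n)
    linarith
  rw [h3, Real.sin_two_mul]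
  unfold co
  have h4 : ((Real.sin (th n) : ℝ) : ℂ) ≠ 0 := by exact_mod_cast (sin_th_pos n).ne'
  have h5 : ((Real.cos (th n) : ℝ) : ℂ) ≠ 0 := by exact_mod_cast (cos_th_pos n).ne'
  have h6 : (n : ℂ) + 3 ≠ 0 := by
    have : ((n : ℝ) + 3) ≠ 0 := by positivity
    exact_mod_cast this
  push_cast at h4 h5 ⊢
  field_simp
  ring

theorem closed_form (n : ℕ) (z : ℂ) :
    ((n : ℂ) + 3) * (1 - z) * ((1 - ww n * z) * (1 - ww' n * z)) ^ 2 * Fm n z
      = ((n : ℂ) + 3) * z * (1 - z) * ((1 - ww n * z) * (1 - ww' n * z))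
        + (2 - ww n - ww' n) * z ^ 2 * (1 + z) * (1 - z ^ (n + 3)) := by
  have hΔ : ww n - ww' n ≠ 0 := by
    rw [ww_sub]
    have h4 : ((Real.sin (th n) : ℝ) : ℂ) ≠ 0 := by exact_mod_cast (sin_th_pos n).ne'
    have h5 : ((Real.cos (th n) : ℝ) : ℂ) ≠ 0 := by exact_mod_cast (cos_th_pos n).ne'
    exact mul_ne_zero (mul_ne_zero (mul_ne_zero (by norm_num) h4) h5) I_ne_zero
  have hσ : 2 - ww n - ww' n ≠ 0 := by
    rw [ww_sig]
    have h4 : ((Real.sin (th n) : ℝ) : ℂ) ≠ 0 := by exact_mod_cast (sin_th_pos n).ne'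
    exact mul_ne_zero (by norm_num) (pow_ne_zero 2 h4)
  have hw0 : ww n ≠ 0 := Complex.exp_ne_zero _
  -- the weighted sum
  have hS : ((n : ℂ) + 3) * (ww n - ww' n) * (2 - ww n - ww' n) * Fm n z
      = (2 - ww n - ww' n) * (∑ j ∈ Finset.range (n + 3), (((n : ℂ) + 3) - (j : ℂ)) * (ww n * z) ^ j
          - ∑ j ∈ Finset.range (n + 3), (((n : ℂ) + 3) - (j : ℂ)) * (ww' n * z) ^ j)
        + (ww n - ww' n) * (2 * ∑ j ∈ Finset.range (n + 3), z ^ j
          - ∑ j ∈ Finset.range (n + 3), (ww n * z) ^ j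
          - ∑ j ∈ Finset.range (n + 3), (ww' n * z) ^ j) := by
    rw [Fm_range, Finset.mul_sum, ← Finset.sum_sub_distrib, Finset.mul_sum, Finset.mul_sum,
      ← Finset.sum_sub_distrib, ← Finset.sum_sub_distrib, Finset.mul_sum, ← Finset.sum_add_distrib]
    apply Finset.sum_congr rfl
    intro j _
    rw [← mul_assoc, co_rel, mul_pow, mul_pow]
    ring
  have e1 := g1_sum (ww n * z) ((n : ℂ) + 3) (n + 3)
  have e2 := g1_sum (ww' n * z) ((n : ℂ) + 3) (n + 3)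
  have e3 := mul_neg_geom_sum z (n + 3)
  have e4 := mul_neg_geom_sum (ww n * z) (n + 3)
  have e5 := mul_neg_geom_sum (ww' n * z) (n + 3)
  rw [mul_pow, ww_pow_M, one_mul] at e1 e4
  rw [mul_pow, ww'_pow_M, one_mul] at e2 e5
  have hcast : ((n + 3 : ℕ) : ℂ) = (n : ℂ) + 3 := by push_cast; ring
  rw [hcast] at e1 e2
  generalize (∑ j ∈ Finset.range (n + 3), (((n : ℂ) + 3) - (j : ℂ)) * (ww n * z) ^ j) = G1 at *
  generalize (∑ j ∈ Finset.range (n + 3), (((n : ℂ) + 3) - (j : ℂ)) * (ww' n * z) ^ j) = G2 at *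
  generalize (∑ j ∈ Finset.range (n + 3), z ^ j) = G0 at *
  generalize (∑ j ∈ Finset.range (n + 3), (ww n * z) ^ j) = H1 at *
  generalize (∑ j ∈ Finset.range (n + 3), (ww' n * z) ^ j) = H2 at *
  have hw' : ww' n = (ww n)⁻¹ := by
    have := ww_mul n
    field_simp
    rw [mul_comm]; exact this
  apply mul_left_cancel₀ (mul_ne_zero hΔ hσ)
  have hL : (ww n - ww' n) * (2 - ww n - ww' n) *
      (((n : ℂ) + 3) * (1 - z) * ((1 - ww n * z) * (1 - ww' n * z)) ^ 2 * Fm n z)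
      = (1 - z) * ((2 - ww n - ww' n) * ((1 - ww' n * z) ^ 2 * ((1 - ww n * z) ^ 2 * G1)
          - (1 - ww n * z) ^ 2 * ((1 - ww' n * z) ^ 2 * G2)))
        + (ww n - ww' n) * (2 * ((1 - ww n * z) * (1 - ww' n * z)) ^ 2 * ((1 - z) * G0)
          - (1 - z) * (1 - ww n * z) * (1 - ww' n * z) ^ 2 * ((1 - ww n * z) * H1)
          - (1 - z) * (1 - ww n * z) ^ 2 * (1 - ww' n * z) * ((1 - ww' n * z) * H2)) := by
    linear_combination ((1 - z) * ((1 - ww n * z) * (1 - ww' n * z)) ^ 2) * hS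
  rw [hL, e1, e2, e3, e4, e5, hw']
  generalize ww n = w at *
  generalize z ^ (n + 3) = Z at *
  generalize (n : ℂ) + 3 = M at *
  field_simp
  ring

end Pool.Agent.TH533.Uni
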