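import Pool.Agent.TH533.UniBdry

set_option autoImplicit false

namespace Pool.Agent.TH533.Uni

open Complex

lemma U_card (m : ℕ) : Multiset.card (Polynomial.Chebyshev.U ℝ (m : ℤ)).roots
    = (Polynomial.Chebyshev.U ℝ (m : ℤ)).natDegree := by
  rw [Polynomial.Chebyshev.roots_U_real, Polynomial.Chebyshev.natDegree_U_natCast, Finset.card_val,
    Finset.card_image_of_injOn, Finset.card_range]
  exact (Finset.range m).nodup_map_iff_injOn.mp (Polynomial.Chebyshev.roots_U_real_nodup m)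

lemma U_prod (m : ℕ) (y : ℝ) : (Polynomial.Chebyshev.U ℝ (m : ℤ)).eval y
    = (Polynomial.Chebyshev.U ℝ (m : ℤ)).leadingCoeff *
      ∏ k ∈ Finset.range m, (y - Real.cos (((k : ℝ) + 1) * Real.pi / ((m : ℝ) + 1))) := by
  have h := Polynomial.C_leadingCoeff_mul_prod_multiset_X_sub_C (U_card m)
  have h2 := congrArg (Polynomial.eval y) h
  rw [Polynomial.eval_mul, Polynomial.eval_C, Polynomial.Chebyshev.roots_U_real] at h2
  rw [← h2]
  congr 1
  have h3 : (Multiset.map (fun a => Polynomial.X - Polynomial.C a)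
      ((Finset.range m).image (fun k : ℕ => Real.cos (((k : ℝ) + 1) * Real.pi / ((m : ℝ) + 1)))).val).prod
      = ∏ a ∈ (Finset.range m).image (fun k : ℕ => Real.cos (((k : ℝ) + 1) * Real.pi / ((m : ℝ) + 1))),
        (Polynomial.X - Polynomial.C a) := rfl
  rw [h3, Finset.prod_image, Polynomial.eval_prod]
  · simp
  · exact (Finset.range m).nodup_map_iff_injOn.mp (Polynomial.Chebyshev.roots_U_real_nodup m)

/-- leading coefficient -/
noncomputable def kap (n : ℕ) : ℝ := (Polynomial.Chebyshev.U ℝ ((n + 2 : ℕ) : ℤ)).leadingCoeff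

lemma kap_ne (n : ℕ) : kap n ≠ 0 := by
  unfold kap
  rw [Polynomial.leadingCoeff_ne_zero]
  intro h
  have h2 := Polynomial.Chebyshev.natDegree_U_natCast ℝ (n + 2)
  rw [h] at h2
  simp at h2

/-- the remaining product -/
noncomputable def Pr (n : ℕ) (t : ℝ) : ℝ :=
  ∏ k ∈ Finset.range n, (Real.cos (t / 2) - Real.cos (((k : ℝ) + 2) * th n)) ^ 2

lemma sin_prod (n : ℕ) (t : ℝ) : Real.sin (((n : ℝ) + 3) * (t / 2)) =
    Real.sin (t / 2) * (kap n * ((PP n t / 4) *
      ∏ k ∈ Finset.range n, (Real.cos (t / 2) - Real.cos (((k : ℝ) + 2) * th n)))) := by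
  have h1 := Polynomial.Chebyshev.U_real_cos (t / 2) ((n + 2 : ℕ) : ℤ)
  have h2 : (((((n + 2 : ℕ) : ℤ)) : ℝ) + 1) * (t / 2) = ((n : ℝ) + 3) * (t / 2) := by push_cast; ring
  rw [h2] at h1
  rw [← h1, U_prod, mul_comm]
  congr 1
  unfold kap
  congr 1
  have h3 : ∀ k : ℕ, Real.cos (((k : ℝ) + 1) * Real.pi / (((n + 2 : ℕ) : ℝ) + 1)) = Real.cos (((k : ℝ) + 1) * th n) := by
    intro k
    congr 1
    unfold th
    push_cast
    have e : (n : ℝ) + 2 + 1 = n + 3 := by ring
    rw [e]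
    ring
  simp_rw [h3]
  rw [Finset.prod_range_succ, Finset.prod_range_succ', PP_eq']
  have h4 : ∀ k : ℕ, (((k + 1 : ℕ) : ℝ) + 1) = (k : ℝ) + 2 := by
    intro k; push_cast; ring
  simp_rw [h4]
  have h5 : Real.cos (((n : ℝ) + 2) * th n) = - Real.cos (th n) := by
    rw [← Real.cos_pi_sub]
    congr 1
    have := th_mul n
    linarith
  rw [h5]
  have h6 : (((0 : ℕ) : ℝ) + 1) * th n = th n := by simp
  rw [h6]
  ring

/-- the constant -/
noncomputable def KK (n : ℕ) : ℝ := Real.sin (th n) ^ 2 * kap n ^ 2 / (4 * ((n : ℝ) + 3))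

lemma KK_pos (n : ℕ) : 0 < KK n := by
  unfold KK
  have h1 := sin_th_pos n
  have h2 : 0 < kap n ^ 2 := by
    have := kap_ne n
    positivity
  positivity

lemma bdry_im (n : ℕ) {t : ℝ} (h0 : 0 < t) (h1 : t < 2 * Real.pi) :
    ((n : ℝ) + 3) * PP n t ^ 2 * Real.sin (t / 2) * (Fm n (bz t)).im
      = 4 * Real.sin (th n) ^ 2 * Real.cos (t / 2) * (1 - Real.cos (((n : ℝ) + 3) * t)) := by
  have h := congrArg Complex.im (boundary n h0 h1)
  rw [Complex.im_ofReal_mul] at h
  rw [h]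
  rw [Complex.add_im, Complex.ofReal_im, Complex.im_ofReal_mul, Complex.I_im]
  ring

lemma bdry_re (n : ℕ) {t : ℝ} (h0 : 0 < t) (h1 : t < 2 * Real.pi) :
    ((n : ℝ) + 3) * PP n t ^ 2 * Real.sin (t / 2) * (Fm n (bz t)).re
      = ((n : ℝ) + 3) * PP n t * Real.sin (t / 2)
        + 4 * Real.sin (th n) ^ 2 * Real.cos (t / 2) * Real.sin (((n : ℝ) + 3) * t) := by
  have h := congrArg Complex.re (boundary n h0 h1)
  rw [Complex.re_ofReal_mul] at h
  rw [h]
  rw [Complex.add_re, Complex.ofReal_re, Complex.re_ofReal_mul, Complex.I_re]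
  ring

lemma v_prod_aux (n : ℕ) {t : ℝ} (h0 : 0 < t) (h1 : t < Real.pi) (hP : PP n t ≠ 0) :
    (Fm n (bz t)).im = KK n * Real.sin t * Pr n t := by
  have hpi := Real.pi_pos
  have h2 := bdry_im n h0 (by linarith)
  have hs : 0 < Real.sin (t / 2) := Real.sin_pos_of_pos_of_lt_pi (by linarith) (by linarith)
  have h3 : 1 - Real.cos (((n : ℝ) + 3) * t) = 2 * Real.sin (((n : ℝ) + 3) * (t / 2)) ^ 2 := by
    have e1 : ((n : ℝ) + 3) * t = 2 * (((n : ℝ) + 3) * (t / 2)) := by ring
    rw [e1, Real.cos_two_mul]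
    have := Real.sin_sq_add_cos_sq (((n : ℝ) + 3) * (t / 2))
    linarith
  have h4 : Real.sin t = 2 * Real.sin (t / 2) * Real.cos (t / 2) := by
    have h1 : Real.sin t = Real.sin (2 * (t / 2)) := by ring_nf
    rw [h1, Real.sin_two_mul]
  rw [h3, sin_prod] at h2
  have hM : ((n : ℝ) + 3) ≠ 0 := by positivity
  have h5 : ((n : ℝ) + 3) * PP n t ^ 2 * Real.sin (t / 2) ≠ 0 := by
    exact mul_ne_zero (mul_ne_zero hM (pow_ne_zero 2 hP)) hs.ne'
  apply mul_left_cancel₀ h5
  rw [h2, h4]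
  unfold KK Pr
  rw [Finset.prod_pow]
  generalize (∏ k ∈ Finset.range n, (Real.cos (t / 2) - Real.cos (((k : ℝ) + 2) * th n))) = Q at *
  field_simp

lemma PP_zero_iff (n : ℕ) {t : ℝ} (h0 : 0 ≤ t) (h1 : t ≤ Real.pi) (hP : PP n t = 0) : t = 2 * th n := by
  have h2 : Real.sin (t / 2) = Real.sin (th n) := by
    unfold PP at hP
    have h3 : Real.sin (t / 2) ^ 2 = Real.sin (th n) ^ 2 := by linarith
    have h4 : 0 ≤ Real.sin (t / 2) := Real.sin_nonneg_of_nonneg_of_le_pi (by linarith) (by linarith)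
    have h5 := sin_th_pos n
    nlinarith
  have h6 : t / 2 = th n := by
    apply Real.injOn_sin _ _ h2
    · constructor <;> linarith [Real.pi_pos]
    · have := th_mul n
      have := th_pos n
      have h7 : (0 : ℝ) ≤ n := Nat.cast_nonneg n
      constructor
      · linarith [Real.pi_pos]
      · nlinarith
  linarith

lemma continuous_bz : Continuous bz := by
  unfold bz; fun_prop

lemma differentiable_Fm (n : ℕ) : Differentiable ℂ (Fm n) := by
  unfold Fm; fun_prop

lemma continuous_Pr (n : ℕ) : Continuous (Pr n) := by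
  unfold Pr; fun_prop

theorem v_prod (n : ℕ) {t : ℝ} (h0 : 0 ≤ t) (h1 : t ≤ Real.pi) :
    (Fm n (bz t)).im = KK n * Real.sin t * Pr n t := by
  have hclosed : IsClosed {t : ℝ | (Fm n (bz t)).im = KK n * Real.sin t * Pr n t} := by
    apply isClosed_eq
    · exact Complex.continuous_im.comp ((differentiable_Fm n).continuous.comp continuous_bz)
    · exact (continuous_const.mul Real.continuous_sin).mul (continuous_Pr n)
  have hth := th_pos n
  have h2th : 2 * th n < Real.pi := by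
    have := th_mul n
    have h7 : (0 : ℝ) ≤ n := Nat.cast_nonneg n
    nlinarith
  have hA : Set.Ioo 0 (2 * th n) ⊆ {t : ℝ | (Fm n (bz t)).im = KK n * Real.sin t * Pr n t} := by
    intro s hs
    apply v_prod_aux n hs.1 (by linarith [hs.2])
    intro h
    have := PP_zero_iff n hs.1.le (by linarith [hs.2]) h
    linarith [hs.2]
  have hB : Set.Ioo (2 * th n) Real.pi ⊆ {t : ℝ | (Fm n (bz t)).im = KK n * Real.sin t * Pr n t} := by
    intro s hs
    apply v_prod_aux n (by linarith [hs.1]) hs.2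
    intro h
    have := PP_zero_iff n (by linarith [hs.1]) hs.2.le h
    linarith [hs.1]
  have hA' := closure_minimal hA hclosed
  have hB' := closure_minimal hB hclosed
  rw [closure_Ioo (by linarith)] at hA'
  rw [closure_Ioo (by linarith)] at hB'
  rcases le_total t (2 * th n) with h | h
  · exact hA' ⟨h0, h⟩
  · exact hB' ⟨h, h1⟩

/-- the derivative of the boundary curve -/
lemma hasDerivAt_curve (F : ℂ → ℂ) (hF : Differentiable ℂ F) (t : ℝ) :
    HasDerivAt (fun t : ℝ => F (bz t)) (I * (bz t * deriv F (bz t))) t := by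
  have h1 : HasDerivAt (fun s : ℂ => Complex.exp (s * I)) (Complex.exp ((t : ℂ) * I) * I) (t : ℂ) := by
    have := ((hasDerivAt_id (t : ℂ)).mul_const I).cexp
    simpa using this
  have h2 := (hF (bz t)).hasDerivAt
  have h3 : HasDerivAt (fun s : ℂ => F (Complex.exp (s * I))) (deriv F (bz t) * (Complex.exp ((t : ℂ) * I) * I)) (t : ℂ) :=
    HasDerivAt.comp (t : ℂ) h2 h1
  have h4 := h3.comp_ofReal
  have h5 : I * (bz t * deriv F (bz t)) = deriv F (bz t) * (Complex.exp ((t : ℂ) * I) * I) := by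
    unfold bz; ring
  rw [h5]
  exact h4

lemma hasDerivAt_im (F : ℂ → ℂ) (hF : Differentiable ℂ F) (t : ℝ) :
    HasDerivAt (fun t : ℝ => (F (bz t)).im) (bz t * deriv F (bz t)).re t := by
  have h1 := hasDerivAt_curve F hF t
  have h2 := Complex.imCLM.hasFDerivAt.comp_hasDerivAt t h1
  have h3 : Complex.imCLM (I * (bz t * deriv F (bz t))) = (bz t * deriv F (bz t)).re := by
    simp [Complex.mul_im]
  rw [h3] at h2
  exact h2

lemma hasDerivAt_re (F : ℂ → ℂ) (hF : Differentiable ℂ F) (t : ℝ) :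
    HasDerivAt (fun t : ℝ => (F (bz t)).re) (-(bz t * deriv F (bz t)).im) t := by
  have h1 := hasDerivAt_curve F hF t
  have h2 := Complex.reCLM.hasFDerivAt.comp_hasDerivAt t h1
  have h3 : Complex.reCLM (I * (bz t * deriv F (bz t))) = -(bz t * deriv F (bz t)).im := by
    simp [Complex.mul_re]
  rw [h3] at h2
  exact h2

end Pool.Agent.TH533.Uni
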